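import Pool.Agent.Lib.MP_359fef_co_h56.Cyc

/-!
# MP_359fef_co, GL2: step0
-/

set_option autoImplicit false

namespace Pool.Agent.MP_359fef_co

open Finset Matrix Module

universe u

namespace GL2

variable {F : Type u} [Field F] {n : ℕ}

/-! ### reflections -/

/-- reflections are the elements `1 + w ψ^T ≠ 1` -/
lemma isRefl_iff (t : Matrix (Fin n) (Fin n) F) :
    IsRefl t ↔ t ≠ 1 ∧ ∃ w ψ : Fin n → F, t - 1 = vecMulVec w ψ := by
  constructor
  · rintro ⟨h1, H, hH, hfix⟩
    refine ⟨h1, ?_⟩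
    have hlt : H < ⊤ := by
      rw [lt_top_iff_ne_top]
      rintro rfl
      rw [finrank_top, finrank_fin_fun] at hH
      omega
    obtain ⟨f, hf0, hf⟩ := H.exists_le_ker_of_lt_top hlt
    have hker : LinearMap.ker f = H := by
      symm
      apply Submodule.eq_of_le_of_finrank_le hf
      have h2 := LinearMap.finrank_range_add_finrank_ker f
      rw [finrank_fin_fun] at h2
      have h3 : 1 ≤ finrank F (LinearMap.range f) := by
        rw [Nat.one_le_iff_ne_zero]
        intro h0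
        rw [Submodule.finrank_eq_zero, LinearMap.range_eq_bot] at h0
        exact hf0 h0
      omega
    obtain ⟨w, hw⟩ : ∃ w, f w ≠ 0 := by
      by_contra hne
      push Not at hne
      exact hf0 (LinearMap.ext hne)
    have hw1 : f ((f w)⁻¹ • w) = 1 := by rw [map_smul, smul_eq_mul, inv_mul_cancel₀ hw]
    set w' := (f w)⁻¹ • w with hw'
    refine ⟨(t - 1) *ᵥ w', fun j => f (Pi.single j 1), ?_⟩
    ext i j
    rw [vecMulVec_apply]
    have h3 : Pi.single j 1 - f (Pi.single j 1) • w' ∈ H := by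
      rw [← hker, LinearMap.mem_ker, map_sub, map_smul, hw1, smul_eq_mul, mul_one, sub_self]
    have h4 := hfix _ h3
    have h5 : (t - 1) *ᵥ (Pi.single j 1 - f (Pi.single j 1) • w') = 0 := by
      rw [sub_mulVec, h4, one_mulVec, sub_self]
    rw [mulVec_sub, mulVec_smul, sub_eq_zero] at h5
    have h6 := congrFun h5 i
    rw [mulVec_single_one] at h6
    simp only [Pi.smul_apply, smul_eq_mul] at h6
    rw [mul_comm, ← h6]
    rfl
  · rintro ⟨h1, w, ψ, h2⟩
    refine ⟨h1, ?_⟩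
    have hψ : ψ ≠ 0 := by
      rintro rfl
      apply h1
      rw [← sub_eq_zero, h2]
      ext i j
      simp [vecMulVec_apply]
    have hw : w ≠ 0 := by
      rintro rfl
      apply h1
      rw [← sub_eq_zero, h2]
      ext i j
      simp [vecMulVec_apply]
    let f : (Fin n → F) →ₗ[F] F :=
      { toFun := fun v => ψ ⬝ᵥ v
        map_add' := fun a b => dotProduct_add _ _ _
        map_smul' := fun a b => by simp [dotProduct_smul] }
    refine ⟨LinearMap.ker f, ?_, ?_⟩
    · have h2 := LinearMap.finrank_range_add_finrank_ker f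
      rw [finrank_fin_fun] at h2
      have h3 : LinearMap.range f = ⊤ := by
        rw [LinearMap.range_eq_top]
        obtain ⟨i, hi⟩ := Function.ne_iff.1 hψ
        intro a
        refine ⟨Pi.single i ((ψ i)⁻¹ * a), ?_⟩
        change ψ ⬝ᵥ _ = a
        rw [dotProduct_single]
        field_simp
        exact mul_div_cancel_left₀ a hi
      rw [h3, finrank_top, finrank_self] at h2
      omega
    · intro x hx
      have h3 : ψ ⬝ᵥ x = 0 := hx
      have h4 : (t - 1) *ᵥ x = 0 := by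
        rw [h2, vecMulVec_mulVec, h3]
        ext i; simp
      rwa [sub_mulVec, one_mulVec, sub_eq_zero] at h4

/-! ### counting -/

variable [Fintype F]

open Classical in
/-- the number of `u ≠ 0` with `M = u ψ^T` for some `ψ` -/
noncomputable def cu (M : Matrix (Fin n) (Fin n) F) : ℕ :=
  (univ.filter (fun u : Fin n → F => u ≠ 0 ∧ ∃ ψ, M = vecMulVec u ψ)).card

open Classical in
lemma card_ne_zero_vec : (univ.filter (fun u : Fin n → F => u ≠ 0)).card =
    Fintype.card F ^ n - 1 := by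
  rw [Finset.filter_ne', Finset.card_erase_of_mem (mem_univ _), card_univ, Fintype.card_fun,
    Fintype.card_fin]

lemma cu_zero : cu (0 : Matrix (Fin n) (Fin n) F) = Fintype.card F ^ n - 1 := by
  classical
  rw [cu, ← card_ne_zero_vec]
  congr 1
  ext u
  simp only [mem_filter, mem_univ, true_and]
  constructor
  · exact fun h => h.1
  · intro h
    refine ⟨h, 0, ?_⟩
    ext i j
    simp [vecMulVec_apply]

lemma cu_rank1 {w ψ : Fin n → F} (h : vecMulVec w ψ ≠ 0) :
    cu (vecMulVec w ψ) = Fintype.card F - 1 := by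
  classical
  have hw : w ≠ 0 := by
    rintro rfl
    apply h
    ext i j; simp [vecMulVec_apply]
  have hψ : ψ ≠ 0 := by
    rintro rfl
    apply h
    ext i j; simp [vecMulVec_apply]
  obtain ⟨k, hk⟩ := Function.ne_iff.1 hψ
  have h1 : (univ.filter (fun u : Fin n → F => u ≠ 0 ∧ ∃ ψ', vecMulVec w ψ = vecMulVec u ψ')) =
      (univ.filter (fun a : F => a ≠ 0)).image (fun a => a • w) := by
    ext u
    simp only [mem_filter, mem_univ, true_and, mem_image]
    constructor
    · rintro ⟨hu, ψ', hψ'⟩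
      have h2 : ∀ i, w i * ψ k = u i * ψ' k := fun i => by
        have := congrFun (congrFun hψ' i) k
        rwa [vecMulVec_apply, vecMulVec_apply] at this
      have h3 : ψ' k ≠ 0 := by
        intro h0
        apply hw
        funext i
        have := h2 i
        rw [h0, mul_zero] at this
        rcases mul_eq_zero.1 this with h | h
        · exact h
        · exact absurd h hk
      refine ⟨ψ k / ψ' k, div_ne_zero hk h3, ?_⟩
      funext i
      simp only [Pi.smul_apply, smul_eq_mul]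
      rw [div_mul_eq_mul_div, div_eq_iff h3, ← h2 i, mul_comm]
    · rintro ⟨a, ha, rfl⟩
      refine ⟨smul_ne_zero ha hw, a⁻¹ • ψ, ?_⟩
      ext i j
      simp only [vecMulVec_apply, Pi.smul_apply, smul_eq_mul]
      field_simp
  rw [cu, h1, Finset.card_image_of_injective]
  · rw [Finset.filter_ne', Finset.card_erase_of_mem (mem_univ _), card_univ]
  · exact smul_left_injective F hw

lemma cu_else {M : Matrix (Fin n) (Fin n) F} (h : ¬ ∃ w ψ, M = vecMulVec w ψ) : cu M = 0 := by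
  classical
  rw [cu, Finset.card_eq_zero, Finset.filter_eq_empty_iff]
  rintro u _ ⟨_, ψ, hψ⟩
  exact h ⟨u, ψ, hψ⟩

lemma one_lt_q : (1 : ℚ) < Fintype.card F := by exact_mod_cast Fintype.one_lt_card

lemma qInt_mul (x : ℚ) (k : ℕ) : (x - 1) * qInt x k = x ^ k - 1 := by
  unfold qInt
  rw [mul_comm]
  exact geom_sum_mul x k

open Classical in
/-- the operator `op` as a sum over rank one perturbations -/
lemma op_eq (a : F) (ha : a ≠ 0) (f : Matrix (Fin n) (Fin n) F → ℚ)
    (c : Matrix (Fin n) (Fin n) F) (hc : InGL c) :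
    ((Fintype.card F : ℚ) - 1) * op InGL (Fintype.card F) a f c =
      ∑ g ∈ univ.filter (fun g : Matrix (Fin n) (Fin n) F => InGL g ∧ g.det = a * c.det),
        (cu (g - c) : ℚ) * f g := by
  have hcd : c.det ≠ 0 := hc.ne_zero
  set G := univ.filter (fun g : Matrix (Fin n) (Fin n) F => InGL g ∧ g.det = a * c.det) with hG
  have h1 : ∑ t ∈ Rset InGL a, ((Fintype.card F : ℚ) - 1) * f (c * t) =
      ∑ g ∈ G.filter (fun g => g ≠ c ∧ ∃ w ψ, g - c = vecMulVec w ψ),
        (cu (g - c) : ℚ) * f g := by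
    refine Finset.sum_bij' (fun t _ => c * t) (fun g _ => c⁻¹ * g) ?_ ?_ ?_ ?_ ?_
    · intro t ht
      rw [Rset, mem_filter, isRefl_iff] at ht
      obtain ⟨_, ht1, ⟨ht2, w, ψ, ht3⟩, ht4⟩ := ht
      rw [mem_filter, hG, mem_filter]
      refine ⟨⟨mem_univ _, ?_, ?_⟩, ?_, c *ᵥ w, ψ, ?_⟩
      · unfold InGL at ht1 hc ⊢
        rw [det_mul]; exact hc.mul ht1
      · rw [det_mul, ht4, mul_comm]
      · intro h
        apply ht2
        have h5 : c⁻¹ * (c * t) = c⁻¹ * c := by rw [h]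
        rwa [← Matrix.mul_assoc, nonsing_inv_mul _ hc, Matrix.one_mul] at h5
      · rw [← mul_vecMulVec, ← ht3, Matrix.mul_sub, Matrix.mul_one]
    · intro g hg
      rw [mem_filter, hG, mem_filter] at hg
      obtain ⟨⟨_, hg1, hg2⟩, hg3, w, ψ, hg4⟩ := hg
      rw [Rset, mem_filter, isRefl_iff]
      refine ⟨mem_univ _, ?_, ⟨?_, c⁻¹ *ᵥ w, ψ, ?_⟩, ?_⟩
      · unfold InGL at hg1 hc ⊢
        rw [det_mul, det_nonsing_inv]
        exact (hc.ringInverse).mul hg1
      · intro h
        apply hg3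
        have h5 : c * (c⁻¹ * g) = c * 1 := by rw [h]
        rwa [← Matrix.mul_assoc, mul_nonsing_inv _ hc, Matrix.one_mul, Matrix.mul_one] at h5
      · rw [← mul_vecMulVec, ← hg4, Matrix.mul_sub, nonsing_inv_mul _ hc]
      · rw [det_mul, det_nonsing_inv, hg2, Ring.inverse_eq_inv']
        field_simp
    · intro t ht
      rw [← Matrix.mul_assoc, nonsing_inv_mul _ hc, Matrix.one_mul]
    · intro g hg
      rw [← Matrix.mul_assoc, mul_nonsing_inv _ hc, Matrix.one_mul]
    · intro t ht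
      rw [Rset, mem_filter, isRefl_iff] at ht
      obtain ⟨_, ht1, ⟨ht2, w, ψ, ht3⟩, ht4⟩ := ht
      have h5 : c * t - c = vecMulVec (c *ᵥ w) ψ := by
        rw [← mul_vecMulVec, ← ht3, Matrix.mul_sub, Matrix.mul_one]
      have h6 : c * t - c ≠ 0 := by
        intro h
        apply ht2
        rw [sub_eq_zero] at h
        have h5 : c⁻¹ * (c * t) = c⁻¹ * c := by rw [h]
        rwa [← Matrix.mul_assoc, nonsing_inv_mul _ hc, Matrix.one_mul] at h5
      rw [h5] at h6 ⊢
      rw [cu_rank1 h6, Nat.cast_sub Fintype.card_pos, Nat.cast_one]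
  have h2 : ∑ g ∈ G, (cu (g - c) : ℚ) * f g =
      ∑ g ∈ G.filter (fun g => g ≠ c ∧ ∃ w ψ, g - c = vecMulVec w ψ), (cu (g - c) : ℚ) * f g +
      ∑ g ∈ G.filter (fun g => ¬ (g ≠ c ∧ ∃ w ψ, g - c = vecMulVec w ψ)),
        (cu (g - c) : ℚ) * f g := (Finset.sum_filter_add_sum_filter_not _ _ _).symm
  have h3 : ∑ g ∈ G.filter (fun g => ¬ (g ≠ c ∧ ∃ w ψ, g - c = vecMulVec w ψ)),
        (cu (g - c) : ℚ) * f g = if a = 1 then ((Fintype.card F : ℚ) ^ n - 1) * f c else 0 := by
    have h4 : ∀ g ∈ G.filter (fun g => ¬ (g ≠ c ∧ ∃ w ψ, g - c = vecMulVec w ψ)), g ≠ c →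
        (cu (g - c) : ℚ) * f g = 0 := by
      intro g hg hgc
      rw [mem_filter] at hg
      rw [cu_else (fun h => hg.2 ⟨hgc, h⟩)]
      simp
    by_cases ha1 : a = 1
    · rw [if_pos ha1, Finset.sum_eq_single c h4, sub_self, cu_zero, Nat.cast_sub
        (Nat.one_le_pow _ _ Fintype.card_pos), Nat.cast_pow, Nat.cast_one]
      intro h
      exfalso
      apply h
      rw [mem_filter, hG, mem_filter]
      exact ⟨⟨mem_univ _, hc, by rw [ha1, one_mul]⟩, fun h => h.1 rfl⟩
    · rw [if_neg ha1]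
      refine Finset.sum_eq_zero (fun g hg => h4 g hg ?_)
      rintro rfl
      rw [mem_filter, hG, mem_filter] at hg
      have := hg.1.2.2
      apply ha1
      have h5 : (a - 1) * g.det = 0 := by rw [sub_mul, one_mul, ← this, sub_self]
      rcases mul_eq_zero.1 h5 with h | h
      · exact sub_eq_zero.1 h
      · exact absurd h hcd
  rw [h2, h3, ← h1, op, mul_add, Finset.mul_sum]
  congr 1
  split_ifs
  · rw [← mul_assoc, qInt_mul]
  · rw [mul_zero]

omit [Fintype F] in
lemma intertwiner_iff {c g x : Matrix (Fin n) (Fin n) F} (hx : InGL x) (u : Fin n → F) :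
    (∃ ψ, g - x * c * x⁻¹ = vecMulVec u ψ) ↔ ∃ ψ, x * c - g * x = vecMulVec u ψ := by
  constructor
  · rintro ⟨ψ, h⟩
    refine ⟨-(ψ ᵥ* x), ?_⟩
    have h1 : (g - x * c * x⁻¹) * x = vecMulVec u (ψ ᵥ* x) := by
      rw [h, vecMulVec_mul]
    rw [Matrix.sub_mul, Matrix.mul_assoc (x * c), nonsing_inv_mul _ hx, Matrix.mul_one] at h1
    rw [← neg_sub, h1]
    ext i j
    simp [vecMulVec_apply]
  · rintro ⟨ψ, h⟩
    refine ⟨-(ψ ᵥ* x⁻¹), ?_⟩
    have h1 : (x * c - g * x) * x⁻¹ = vecMulVec u (ψ ᵥ* x⁻¹) := by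
      rw [h, vecMulVec_mul]
    rw [Matrix.sub_mul, Matrix.mul_assoc g, mul_nonsing_inv _ hx, Matrix.mul_one] at h1
    rw [← neg_sub, h1]
    ext i j
    simp [vecMulVec_apply]

open Classical in
lemma count_x (hn : 1 ≤ n) {c g : Matrix (Fin n) (Fin n) F} (hirr : IsIrred c) (u : Fin n → F) :
    (univ.filter (fun x : Matrix (Fin n) (Fin n) F => InGL x ∧
      (u ≠ 0 ∧ ∃ ψ, g - x * c * x⁻¹ = vecMulVec u ψ))).card =
      if Cyc g u then Fintype.card F ^ n - 1 else 0 := by
  split_ifs with hu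
  · rw [← card_ne_zero_vec]
    have hu0 := hu.ne_zero hn
    refine Finset.card_bij (fun x _ => x⁻¹ *ᵥ u) ?_ ?_ ?_
    · intro x hx
      rw [mem_filter] at hx ⊢
      refine ⟨mem_univ _, ?_⟩
      intro h
      apply hu0
      have h1 : x *ᵥ (x⁻¹ *ᵥ u) = x *ᵥ 0 := by rw [h]
      rwa [mulVec_mulVec, mul_nonsing_inv _ hx.2.1, one_mulVec, mulVec_zero] at h1
    · intro x hx x' hx' h
      rw [mem_filter] at hx hx'
      have hv0 : x⁻¹ *ᵥ u ≠ 0 := by
        intro h
        apply hu0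
        have h1 : x *ᵥ (x⁻¹ *ᵥ u) = x *ᵥ 0 := by rw [h]
        rwa [mulVec_mulVec, mul_nonsing_inv _ hx.2.1, one_mulVec, mulVec_zero] at h1
      have h1 := unique_sol hn (IsIrred.cyc hirr hv0) hu
      refine h1.unique ⟨?_, (intertwiner_iff hx.2.1 u).1 hx.2.2.2⟩
        ⟨?_, (intertwiner_iff hx'.2.1 u).1 hx'.2.2.2⟩
      · rw [mulVec_mulVec, mul_nonsing_inv _ hx.2.1, one_mulVec]
      · rw [h, mulVec_mulVec, mul_nonsing_inv _ hx'.2.1, one_mulVec]
    · intro v0 hv0
      rw [mem_filter] at hv0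
      obtain ⟨x, ⟨h1, h2⟩, _⟩ := unique_sol hn (IsIrred.cyc hirr hv0.2) hu
      have hx : InGL x := (isUnit_iff_isUnit_det x).1 (isUnit_of_cyc hu h1 h2)
      refine ⟨x, ?_, ?_⟩
      · rw [mem_filter]
        exact ⟨mem_univ _, hx, hu0, (intertwiner_iff hx u).2 h2⟩
      · rw [← h1, mulVec_mulVec, nonsing_inv_mul _ hx, one_mulVec]
  · rw [Finset.card_eq_zero, Finset.filter_eq_empty_iff]
    rintro x _ ⟨hx, hu0, h⟩
    exact hu (cyc_of_isUnit hirr ((isUnit_iff_isUnit_det x).2 hx) hu0 ((intertwiner_iff hx u).1 h))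

open Classical in
lemma NN_one (g : Matrix (Fin n) (Fin n) F) :
    NN 1 g = ((univ.filter (fun u : Fin n → F => Cyc g u)).card : ℚ) := by
  rw [NN, ← Fintype.card_subtype, ← Nat.card_eq_fintype_card]
  congr 1
  refine Nat.card_congr
    { toFun := fun y => ⟨y.1 0, fun S hS h => y.2 S hS (fun i => by
        rw [Subsingleton.elim i 0]; exact h)⟩
      invFun := fun u => ⟨fun _ => u.1, fun S hS h => u.2 S hS (h 0)⟩
      left_inv := fun y => by
        apply Subtype.ext
        funext i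
        rw [Subsingleton.elim i 0]
      right_inv := fun u => rfl }

open Classical in
lemma sum_cu (hn : 1 ≤ n) {c g : Matrix (Fin n) (Fin n) F} (hirr : IsIrred c) :
    ∑ x ∈ univ.filter (fun x : Matrix (Fin n) (Fin n) F => InGL x),
      (cu (g - x * c * x⁻¹) : ℚ) = ((Fintype.card F : ℚ) ^ n - 1) * NN 1 g := by
  rw [NN_one]
  have h1 : ∑ x ∈ univ.filter (fun x : Matrix (Fin n) (Fin n) F => InGL x),
      cu (g - x * c * x⁻¹) = ∑ u : Fin n → F, if Cyc g u then Fintype.card F ^ n - 1 else 0 := by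
    rw [← Finset.sum_congr rfl (fun u _ => count_x hn hirr u), Finset.sum_filter]
    have e1 : ∀ x : Matrix (Fin n) (Fin n) F, (if InGL x then cu (g - x * c * x⁻¹) else 0) =
        ∑ u : Fin n → F, if (InGL x ∧ (u ≠ 0 ∧ ∃ ψ, g - x * c * x⁻¹ = vecMulVec u ψ))
          then 1 else 0 := by
      intro x
      by_cases hx : InGL x
      · rw [if_pos hx, cu, Finset.card_filter]
        simp only [hx, true_and]
      · rw [if_neg hx]
        simp only [hx, false_and, if_false, Finset.sum_const_zero]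
    rw [Finset.sum_congr rfl (fun x _ => e1 x), Finset.sum_comm]
    refine Finset.sum_congr rfl (fun u _ => ?_)
    rw [Finset.card_filter]
  rw [← Nat.cast_sum, h1, Finset.sum_ite, Finset.sum_const_zero, add_zero, Finset.sum_const,
    smul_eq_mul, Nat.cast_mul, Nat.cast_sub (Nat.one_le_pow _ _ Fintype.card_pos), Nat.cast_pow,
    Nat.cast_one, mul_comm]

open Classical in
lemma card_InGL : ((univ.filter (fun x : Matrix (Fin n) (Fin n) F => InGL x)).card : ℚ) =
    ∏ i ∈ range n, ((Fintype.card F : ℚ) ^ n - (Fintype.card F : ℚ) ^ i) := by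
  have h1 : (univ.filter (fun x : Matrix (Fin n) (Fin n) F => InGL x)).card =
      Nat.card (GL (Fin n) F) := by
    rw [← Fintype.card_subtype, ← Nat.card_eq_fintype_card]
    refine Nat.card_congr
      { toFun := fun x => Matrix.GeneralLinearGroup.mk'' x.1 x.2
        invFun := fun x => ⟨x.1, (isUnit_iff_isUnit_det _).1 x.isUnit⟩
        left_inv := fun x => rfl
        right_inv := fun x => Units.ext rfl }
  rw [h1, Matrix.card_GL_field, Nat.cast_prod, Finset.prod_range]
  refine Finset.prod_congr rfl (fun i _ => ?_)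
  rw [Nat.cast_sub (Nat.pow_le_pow_right Fintype.card_pos i.isLt.le), Nat.cast_pow, Nat.cast_pow]

omit [Fintype F] in
lemma isRefl_conj {t x : Matrix (Fin n) (Fin n) F} (hx : InGL x) (ht : IsRefl t) :
    IsRefl (x * t * x⁻¹) := by
  rw [isRefl_iff] at ht ⊢
  obtain ⟨h1, w, ψ, h2⟩ := ht
  refine ⟨?_, x *ᵥ w, ψ ᵥ* x⁻¹, ?_⟩
  · intro h
    apply h1
    have h3 : x⁻¹ * (x * t * x⁻¹) * x = x⁻¹ * 1 * x := by rw [h]
    rwa [Matrix.mul_one, nonsing_inv_mul _ hx, Matrix.mul_assoc x, ← Matrix.mul_assoc x⁻¹,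
      nonsing_inv_mul _ hx, Matrix.one_mul, Matrix.mul_assoc, nonsing_inv_mul _ hx,
      Matrix.mul_one] at h3
  · rw [← mul_vecMulVec, ← vecMulVec_mul, ← h2, Matrix.sub_mul, Matrix.mul_sub,
      Matrix.one_mul, mul_nonsing_inv _ hx, Matrix.mul_assoc]

omit [Fintype F] in
lemma inGL_conj {t x : Matrix (Fin n) (Fin n) F} (hx : InGL x) (ht : InGL t) :
    InGL (x * t * x⁻¹) := by
  unfold InGL at ht hx ⊢
  rw [det_mul, det_mul, det_nonsing_inv]
  exact (hx.mul ht).mul hx.ringInverse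

omit [Fintype F] in
lemma det_conj' {t x : Matrix (Fin n) (Fin n) F} (hx : InGL x) :
    (x * t * x⁻¹).det = t.det := by
  unfold InGL at hx
  rw [det_mul, det_mul, det_nonsing_inv, Ring.inverse_eq_inv', mul_comm x.det, mul_assoc,
    mul_inv_cancel₀ hx.ne_zero, mul_one]

omit [Fintype F] in
lemma inGL_inv {x : Matrix (Fin n) (Fin n) F} (hx : InGL x) : InGL x⁻¹ := by
  unfold InGL at hx ⊢
  rw [det_nonsing_inv]
  exact hx.ringInverse

/-- sums over reflections of determinant `a` are invariant under conjugation -/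
lemma sum_Rset_conj (a : F) (φ : Matrix (Fin n) (Fin n) F → ℚ) {x : Matrix (Fin n) (Fin n) F}
    (hx : InGL x) :
    ∑ t ∈ Rset InGL a, φ (x * t * x⁻¹) = ∑ t ∈ Rset InGL a, φ t := by
  classical
  have hxi := inGL_inv hx
  refine Finset.sum_bij' (fun t _ => x * t * x⁻¹) (fun t _ => x⁻¹ * t * x) ?_ ?_ ?_ ?_ ?_
  · intro t ht
    rw [Rset, mem_filter] at ht ⊢
    exact ⟨mem_univ _, inGL_conj hx ht.2.1, isRefl_conj hx ht.2.2.1,
      by rw [det_conj' hx, ht.2.2.2]⟩
  · intro t ht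
    rw [Rset, mem_filter] at ht ⊢
    have h1 : x⁻¹ * t * x = x⁻¹ * t * x⁻¹⁻¹ := by rw [nonsing_inv_nonsing_inv _ hx]
    rw [h1]
    exact ⟨mem_univ _, inGL_conj hxi ht.2.1, isRefl_conj hxi ht.2.2.1,
      by rw [det_conj' hxi, ht.2.2.2]⟩
  · intro t _
    rw [Matrix.mul_assoc x, ← Matrix.mul_assoc x⁻¹, nonsing_inv_mul _ hx, Matrix.one_mul,
      Matrix.mul_assoc, nonsing_inv_mul _ hx, Matrix.mul_one]
  · intro t _
    rw [Matrix.mul_assoc x⁻¹, ← Matrix.mul_assoc x, mul_nonsing_inv _ hx, Matrix.one_mul,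
      Matrix.mul_assoc, mul_nonsing_inv _ hx, Matrix.mul_one]
  · intro t _; rfl

/-- `op a f` is a class function if `f` is one -/
lemma op_conj (x : ℚ) (a : F) (f : Matrix (Fin n) (Fin n) F → ℚ)
    (hf : ∀ x g, InGL x → f (x * g * x⁻¹) = f g) {y : Matrix (Fin n) (Fin n) F}
    (g : Matrix (Fin n) (Fin n) F) (hy : InGL y) :
    op InGL x a f (y * g * y⁻¹) = op InGL x a f g := by
  unfold op
  rw [hf y g hy]
  congr 1
  rw [← sum_Rset_conj a _ hy]
  refine Finset.sum_congr rfl (fun t _ => ?_)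
  have h1 : y * g * y⁻¹ * (y * t * y⁻¹) = y * (g * t) * y⁻¹ := by
    rw [Matrix.mul_assoc y t, ← Matrix.mul_assoc (y * g * y⁻¹), Matrix.mul_assoc (y * g),
      nonsing_inv_mul _ hy, Matrix.mul_one, Matrix.mul_assoc, Matrix.mul_assoc, Matrix.mul_assoc]
  rw [h1, hf y _ hy]

end GL2

open GL2

variable {F : Type u} [Field F] [Fintype F] {n : ℕ}

open Classical in
/-- Task GL2 -/
theorem step0 (hn : 1 ≤ n) (c : Matrix (Fin n) (Fin n) F) (hc : InGL c) (hirr : IsIrred c)
    (a : F) (ha : a ≠ 0) (f : Matrix (Fin n) (Fin n) F → ℚ)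
    (hf : ∀ x g, InGL x → f (x * g * x⁻¹) = f g) :
    (∏ i ∈ range n, ((Fintype.card F : ℚ) ^ n - (Fintype.card F : ℚ) ^ i)) *
        op InGL (Fintype.card F) a f c =
      qInt (Fintype.card F) n *
        ∑ g ∈ univ.filter (fun g : Matrix (Fin n) (Fin n) F => InGL g ∧ g.det = a * c.det),
          NN 1 g * f g := by
  have hq : ((Fintype.card F : ℚ) - 1) ≠ 0 := (sub_pos.2 one_lt_q).ne'
  apply mul_left_cancel₀ hq
  rw [← card_InGL, ← mul_assoc, ← mul_assoc, qInt_mul]
  have h1 : ∑ x ∈ univ.filter (fun x : Matrix (Fin n) (Fin n) F => InGL x),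
      ((Fintype.card F : ℚ) - 1) * op InGL (Fintype.card F) a f (x * c * x⁻¹) =
      ((Fintype.card F : ℚ) - 1) * ((univ.filter (fun x : Matrix (Fin n) (Fin n) F =>
        InGL x)).card : ℚ) * op InGL (Fintype.card F) a f c := by
    rw [Finset.sum_congr rfl (g := fun _ => ((Fintype.card F : ℚ) - 1) *
      op InGL (Fintype.card F) a f c), Finset.sum_const, nsmul_eq_mul]
    · ring
    · intro x hx
      rw [mem_filter] at hx
      rw [op_conj _ a f hf c hx.2]
  rw [← h1]
  have h2 : ∀ x ∈ univ.filter (fun x : Matrix (Fin n) (Fin n) F => InGL x),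
      ((Fintype.card F : ℚ) - 1) * op InGL (Fintype.card F) a f (x * c * x⁻¹) =
      ∑ g ∈ univ.filter (fun g : Matrix (Fin n) (Fin n) F => InGL g ∧ g.det = a * c.det),
        (cu (g - x * c * x⁻¹) : ℚ) * f g := by
    intro x hx
    rw [mem_filter] at hx
    rw [op_eq a ha f _ (inGL_conj hx.2 hc), det_conj' hx.2]
  rw [Finset.sum_congr rfl h2, Finset.sum_comm, Finset.mul_sum]
  refine Finset.sum_congr rfl (fun g _ => ?_)
  rw [← Finset.sum_mul, sum_cu hn hirr]
  ring

end Pool.Agent.MP_359fef_co
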