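import Pool.Agent.Lib.MP_359fef_co_h56.Dual

/-!
# GL1, the two dual sums (b1) and (b2)
-/

set_option autoImplicit false

namespace Pool.Agent.MP_359fef_co.GL1

open Polynomial Module

universe u

section count

variable {F : Type u} [Field F] {M : Type u} [AddCommGroup M] [Module F M] {T : M →ₗ[F] M}

theorem genE_quot {D : Submodule F M} (hD : StabE T D) {k : ℕ} (y : Fin k → M) :
    GenE (Tq T D hD) (fun i => (Submodule.Quotient.mk (y i) : M ⧸ D)) ↔
      ∀ S : Submodule F M, StabE T S → D ≤ S → (∀ i, y i ∈ S) → S = ⊤ := by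
  constructor
  · intro h S hS hDS hy
    have h1 := h (S.map D.mkQ) (by
      rintro _ ⟨x, hx, rfl⟩
      exact ⟨T x, hS x hx, rfl⟩) (fun i => ⟨y i, hy i, rfl⟩)
    have h2 : (S.map D.mkQ).comap D.mkQ = S := by
      rw [Submodule.comap_map_mkQ]
      exact sup_eq_right.2 hDS
    rw [h1, Submodule.comap_top] at h2
    exact h2.symm
  · intro h S hS hy
    have h1 := h (S.comap D.mkQ) (fun x hx => hS _ hx) (fun x hx => by
      change (Submodule.Quotient.mk x : M ⧸ D) ∈ S
      rw [(Submodule.Quotient.mk_eq_zero D).2 hx]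
      exact S.zero_mem) (fun i => hy i)
    rw [eq_top_iff]
    intro z _
    obtain ⟨x, rfl⟩ := Submodule.Quotient.mk_surjective D z
    have h2 : x ∈ S.comap D.mkQ := by rw [h1]; exact Submodule.mem_top
    exact h2

theorem card_mk {D : Submodule F M} (c : M ⧸ D) :
    Nat.card {x : M // (Submodule.Quotient.mk x : M ⧸ D) = c} = Nat.card D := by
  obtain ⟨x0, rfl⟩ := Submodule.Quotient.mk_surjective D c
  refine Nat.card_congr
    { toFun := fun x => ⟨x.1 - x0, (Submodule.Quotient.eq D).1 x.2⟩
      invFun := fun d => ⟨d.1 + x0, (Submodule.Quotient.eq D).2 (by rw [add_sub_cancel_right]; exact d.2)⟩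
      left_inv := fun x => by simp
      right_inv := fun d => by simp }

theorem card_lift [Finite M] {D : Submodule F M} (hD : StabE T D) (k : ℕ) :
    Nat.card {y : Fin k → M // ∀ S : Submodule F M, StabE T S → D ≤ S → (∀ i, y i ∈ S) → S = ⊤} =
      Nat.card D ^ k * NE (Tq T D hD) k := by
  classical
  have hfin : Finite (M ⧸ D) := Finite.of_surjective _ D.mkQ_surjective
  have e1 : {y : Fin k → M // ∀ S : Submodule F M, StabE T S → D ≤ S → (∀ i, y i ∈ S) → S = ⊤} ≃
      (c : {z : Fin k → M ⧸ D // GenE (Tq T D hD) z}) ×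
        {f : Fin k → M // ∀ i, (Submodule.Quotient.mk (f i) : M ⧸ D) = c.1 i} :=
    { toFun := fun y => ⟨⟨fun i => Submodule.Quotient.mk (y.1 i), (genE_quot hD y.1).2 y.2⟩,
        ⟨y.1, fun i => rfl⟩⟩
      invFun := fun s => ⟨s.2.1, (genE_quot hD _).1 (by
        have : (fun i => (Submodule.Quotient.mk (s.2.1 i) : M ⧸ D)) = s.1.1 :=
          funext s.2.2
        rw [this]
        exact s.1.2)⟩
      left_inv := fun y => rfl
      right_inv := fun s => by
        apply Sigma.subtype_ext
        · apply Subtype.ext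
          exact funext s.2.2
        · rfl }
  have h2 : ∀ c : Fin k → M ⧸ D, Nat.card {f : Fin k → M // ∀ i,
      (Submodule.Quotient.mk (f i) : M ⧸ D) = c i} = Nat.card D ^ k := by
    intro c
    rw [Nat.card_congr (β := (i : Fin k) → {x : M // (Submodule.Quotient.mk x : M ⧸ D) = c i})
      { toFun := fun f i => ⟨f.1 i, f.2 i⟩
        invFun := fun g => ⟨fun i => (g i).1, fun i => (g i).2⟩
        left_inv := fun f => rfl
        right_inv := fun g => rfl }]
    rw [Nat.card_pi, Finset.prod_congr rfl (fun i _ => card_mk (c i)), Finset.prod_const,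
      Finset.card_univ, Fintype.card_fin]
  have : Fintype {z : Fin k → M ⧸ D // GenE (Tq T D hD) z} := Fintype.ofFinite _
  rw [Nat.card_congr e1, Nat.card_sigma, Finset.sum_congr rfl (fun c _ => h2 c.1), Finset.sum_const,
    smul_eq_mul, NE, Finset.card_univ, ← Nat.card_eq_fintype_card, mul_comm]

theorem genE_cons_left {k : ℕ} (w : M) (y : Fin k → M) :
    GenE T (Fin.cons w y : Fin (k + 1) → M) ↔
      ∀ S : Submodule F M, StabE T S → hull1 T w ≤ S → (∀ i, y i ∈ S) → S = ⊤ := by
  constructor
  · intro h S hS h1 h2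
    refine h S hS (fun i => ?_)
    refine Fin.cases ?_ (fun j => ?_) i
    · exact (hull1_le hS).1 h1
    · exact h2 j
  · intro h S hS h1
    exact h S hS ((hull1_le hS).2 (h1 0)) (fun i => h1 i.succ)

theorem genE_cons_right {k : ℕ} (w : M) (y : Fin k → M) :
    GenE T (Fin.cons w y : Fin (k + 1) → M) ↔
      ∀ S : Submodule F M, StabE T S → hull T y ≤ S → (∀ i : Fin 1, (fun _ => w) i ∈ S) → S = ⊤ := by
  constructor
  · intro h S hS h1 h2
    refine h S hS (fun i => ?_)
    refine Fin.cases ?_ (fun j => ?_) i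
    · exact h2 0
    · exact h1 (mem_hull T y j)
  · intro h S hS h1
    exact h S hS (hull_le hS (fun i => h1 i.succ)) (fun i => h1 0)

theorem NE_succ_left [Finite M] [Fintype M] (k : ℕ) :
    NE T (k + 1) = ∑ w : M, Nat.card (hull1 T w) ^ k * NE (Tq T _ (stab_hull1 w)) k := by
  have e : {y : Fin (k + 1) → M // GenE T y} ≃
      (w : M) × {y : Fin k → M // GenE T (Fin.cons w y : Fin (k + 1) → M)} :=
    { toFun := fun y => ⟨y.1 0, ⟨fun i => y.1 i.succ, by
        have : (Fin.cons (y.1 0) (fun i => y.1 i.succ) : Fin (k + 1) → M) = y.1 :=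
          Fin.cons_self_tail y.1
        rw [this]; exact y.2⟩⟩
      invFun := fun s => ⟨Fin.cons s.1 s.2.1, s.2.2⟩
      left_inv := fun y => Subtype.ext (Fin.cons_self_tail y.1)
      right_inv := fun s => rfl }
  rw [NE, Nat.card_congr e, Nat.card_sigma]
  refine Finset.sum_congr rfl (fun w _ => ?_)
  rw [← card_lift (stab_hull1 w) k]
  exact Nat.card_congr (Equiv.subtypeEquivRight (fun y => genE_cons_left w y))

theorem NE_succ_right [Finite M] (k : ℕ) [Fintype (Fin k → M)] :
    NE T (k + 1) = ∑ y : Fin k → M, Nat.card (hull T y) * NE (Tq T _ (stab_hull T y)) 1 := by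
  have e : {y : Fin (k + 1) → M // GenE T y} ≃
      (y : Fin k → M) × {w : M // GenE T (Fin.cons w y : Fin (k + 1) → M)} :=
    { toFun := fun y => ⟨fun i => y.1 i.succ, ⟨y.1 0, by
        have : (Fin.cons (y.1 0) (fun i => y.1 i.succ) : Fin (k + 1) → M) = y.1 :=
          Fin.cons_self_tail y.1
        rw [this]; exact y.2⟩⟩
      invFun := fun s => ⟨Fin.cons s.2.1 s.1, s.2.2⟩
      left_inv := fun y => Subtype.ext (Fin.cons_self_tail y.1)
      right_inv := fun s => rfl }
  rw [NE, Nat.card_congr e, Nat.card_sigma]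
  refine Finset.sum_congr rfl (fun y _ => ?_)
  have h1 := card_lift (stab_hull T y) 1
  rw [pow_one] at h1
  rw [← h1]
  refine Nat.card_congr
    { toFun := fun w => ⟨fun _ => w.1, (genE_cons_right w.1 y).1 w.2⟩
      invFun := fun z => ⟨z.1 0, (genE_cons_right (z.1 0) y).2 (by
        have h2 : (fun _ : Fin 1 => z.1 0) = z.1 := by
          funext i
          rw [Subsingleton.elim i 0]
        rw [h2]
        exact z.2)⟩
      left_inv := fun w => rfl
      right_inv := fun z => by
        apply Subtype.ext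
        funext i
        change z.1 0 = z.1 i
        rw [Subsingleton.elim i 0] }

end count

section sums

variable {F : Type u} [Field F] {M : Type u} [AddCommGroup M] [Module F M] {T : M →ₗ[F] M}
  (s : SForm T)

theorem SForm.sum_dual [FiniteDimensional F M] [Fintype (M →ₗ[F] F)] [Fintype M]
    (f : (M →ₗ[F] F) → ℚ) : ∑ φ : M →ₗ[F] F, f φ = ∑ w : M, f (s.B w) := by
  refine (Equiv.sum_comp (s.B.toDual s.nd).toEquiv f).symm

theorem SForm.orth_orth [FiniteDimensional F M] (D : Submodule F M) :
    s.B.orthogonal (s.B.orthogonal D) = D :=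
  LinearMap.BilinForm.orthogonal_orthogonal s.nd s.refl D

theorem sum_b1 [Finite F] [Finite M] [FiniteDimensional F M] [Fintype (M →ₗ[F] F)]
    (T : M →ₗ[F] M) (k : ℕ) :
    ∑ φ : M →ₗ[F] F, (Nat.card F : ℚ) ^ (k * finrank F (M ⧸ DD T φ)) * NS T (DD T φ) k =
      NE T (k + 1) := by
  classical
  obtain ⟨s⟩ := exists_SForm T
  have : Fintype M := Fintype.ofFinite M
  rw [s.sum_dual, NE_succ_left, Nat.cast_sum]
  refine Finset.sum_congr rfl (fun w _ => ?_)
  rw [s.DD_eq, s.NS_orth (stab_hull1 w)]
  have h1 : finrank F (M ⧸ s.B.orthogonal (hull1 T w)) = finrank F (hull1 T w) := by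
    have h2 := Submodule.finrank_quotient_add_finrank (s.B.orthogonal (hull1 T w))
    rw [LinearMap.BilinForm.finrank_orthogonal s.nd] at h2
    have h3 := Submodule.finrank_le (hull1 T w)
    omega
  rw [h1]
  push_cast
  congr 1
  rw [Module.natCard_eq_pow_finrank (K := F) (V := hull1 T w)]
  push_cast
  rw [← pow_mul, mul_comm]

theorem sum_b2 [Finite F] [Finite M] [FiniteDimensional F M] [Fintype (M →ₗ[F] F)]
    (T : M →ₗ[F] M) (k : ℕ) :
    ∑ φ : M →ₗ[F] F, (Nat.card (DD T φ) : ℚ) * NS T (DD T φ) k = NE T (k + 1) := by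
  classical
  obtain ⟨s⟩ := exists_SForm T
  have : Fintype M := Fintype.ofFinite M
  rw [s.sum_dual, NE_succ_right, Nat.cast_sum]
  have h1 : ∀ w : M, (Nat.card (DD T (s.B w)) : ℚ) * NS T (DD T (s.B w)) k =
      ∑ y : Fin k → M, if hull T y = DD T (s.B w) then (Nat.card (hull T y) : ℚ) else 0 := by
    intro w
    have h2 : ∀ y : Fin k → M, (if hull T y = DD T (s.B w) then (Nat.card (hull T y) : ℚ) else 0) =
        (Nat.card (DD T (s.B w)) : ℚ) * (if hull T y = DD T (s.B w) then 1 else 0) := by
      intro y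
      split_ifs with h
      · rw [h, mul_one]
      · rw [mul_zero]
    rw [Finset.sum_congr rfl (fun y _ => h2 y), ← Finset.mul_sum]
    congr 1
    rw [NS, Nat.card_eq_fintype_card, Fintype.card_subtype, Finset.sum_boole]
  rw [Finset.sum_congr rfl (fun w _ => h1 w), Finset.sum_comm]
  refine Finset.sum_congr rfl (fun y _ => ?_)
  have h3 : ∀ w : M, (if hull T y = DD T (s.B w) then (Nat.card (hull T y) : ℚ) else 0) =
      (Nat.card (hull T y) : ℚ) * (if hull1 T w = s.B.orthogonal (hull T y) then 1 else 0) := by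
    intro w
    have h4 : hull T y = DD T (s.B w) ↔ hull1 T w = s.B.orthogonal (hull T y) := by
      rw [s.DD_eq]
      constructor
      · intro h
        rw [h, s.orth_orth]
      · intro h
        rw [h, s.orth_orth]
    simp only [h4]
    split_ifs
    · rw [mul_one]
    · rw [mul_zero]
  rw [Finset.sum_congr rfl (fun w _ => h3 w), ← Finset.mul_sum, Finset.sum_boole]
  push_cast
  congr 2
  rw [← s.NS_orth (stab_hull T y), NS]
  have e : {y' : Fin 1 → M // hull T y' = s.B.orthogonal (hull T y)} ≃
      {w : M // hull1 T w = s.B.orthogonal (hull T y)} :=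
    { toFun := fun z => ⟨z.1 0, by
        have h2 : (fun _ : Fin 1 => z.1 0) = z.1 := by
          funext i
          rw [Subsingleton.elim i 0]
        rw [hull1, h2]
        exact z.2⟩
      invFun := fun w => ⟨fun _ => w.1, w.2⟩
      left_inv := fun z => by
        apply Subtype.ext
        funext i
        change z.1 0 = z.1 i
        rw [Subsingleton.elim i 0]
      right_inv := fun w => rfl }
  rw [Nat.card_congr e, Nat.card_eq_fintype_card, Fintype.card_subtype]

end sums

end Pool.Agent.MP_359fef_co.GL1
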