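import Pool.Agent.Lib.MP_359fef_co_h56.GLMain
import Pool.Agent.Lib.MP_359fef_co_h56.DualSum
import Pool.Agent.Lib.MP_359fef_co_h47.GL1e

/-!
# The GL part of MP_359fef_co: `star` and `glMain`
-/

set_option autoImplicit false

namespace Pool.Agent.MP_359fef_co

open Finset Matrix Module

universe u

variable {F : Type u} [Field F] [Fintype F] {n : ℕ}

/-- Task GL1 -/
theorem star (_hn : 1 ≤ n) (g : Matrix (Fin n) (Fin n) F) (hg : InGL g) (a : F) (ha : a ≠ 0) (k : ℕ) :
    ((Fintype.card F : ℚ) ^ (k + 1) - 1) * op InGL (Fintype.card F) a (NN k) g =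
      ((Fintype.card F : ℚ) ^ k - 1) * qInt (Fintype.card F) n * NN (k + 1) g := by
  classical
  have hfin : Finite ((Fin n → F) →ₗ[F] F) := Module.finite_of_finite F
  have : Fintype ((Fin n → F) →ₗ[F] F) := Fintype.ofFinite _
  exact GL1.star_of g hg a ha k (GL1.sum_b1 _ k) (GL1.sum_b2 _ k)

/-- Task GL3 -/
theorem glMain (hn : 1 ≤ n) (c : Matrix (Fin n) (Fin n) F) (hc : InGL c) (hirr : IsIrred c)
    (_hc1 : c ≠ 1) (l : List F) (hl : l ≠ []) (hprod : l.prod = c.det) :
    cf InGL (Fintype.card F) l c = kapVal (Fintype.card F) n l.length := by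
  classical
  exact GL3.glMain_of_star (fun g hg a ha k => star hn g hg a ha k) hn c hc hirr l hl hprod

end Pool.Agent.MP_359fef_co
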