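import Pool.Agent.Lib.MP_359fef_co_h56.GLDefs

/-!
# MP_359fef_co, GL2: cyclic vectors and the unique intertwiner
-/

set_option autoImplicit false

namespace Pool.Agent.MP_359fef_co

open Finset Matrix Module

universe u

namespace GL2

variable {F : Type u} [Field F] {n : ℕ}

/-- `u` is a cyclic vector for `g` -/
def Cyc (g : Matrix (Fin n) (Fin n) F) (u : Fin n → F) : Prop :=
  ∀ S : Submodule F (Fin n → F), (∀ x ∈ S, g *ᵥ x ∈ S) → u ∈ S → S = ⊤

/-- the span of `u, g u, ..., g^(k-1) u` -/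
def Wk (g : Matrix (Fin n) (Fin n) F) (u : Fin n → F) : ℕ → Submodule F (Fin n → F)
  | 0 => ⊥
  | k + 1 => Wk g u k ⊔ Submodule.span F {(g ^ k) *ᵥ u}

variable (g : Matrix (Fin n) (Fin n) F) (u : Fin n → F)

lemma Wk_le (k : ℕ) : Wk g u k ≤ Wk g u (k + 1) := by
  rw [Wk]; exact le_sup_left

lemma Wk_mono : Monotone (Wk g u) := monotone_nat_of_le_succ (Wk_le g u)

lemma pow_mem_Wk (k : ℕ) : (g ^ k) *ᵥ u ∈ Wk g u (k + 1) := by
  rw [Wk]
  exact Submodule.mem_sup_right (Submodule.mem_span_singleton_self _)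

lemma u_mem_Wk (k : ℕ) : u ∈ Wk g u (k + 1) := by
  have h1 := pow_mem_Wk g u 0
  rw [pow_zero, one_mulVec] at h1
  exact Wk_mono g u (Nat.succ_le_succ (Nat.zero_le k)) h1

lemma mul_mem_Wk (k : ℕ) (w : Fin n → F) (hw : w ∈ Wk g u k) : g *ᵥ w ∈ Wk g u (k + 1) := by
  induction k generalizing w with
  | zero =>
    rw [Wk, Submodule.mem_bot] at hw
    rw [hw, mulVec_zero]
    exact Submodule.zero_mem _
  | succ k ih =>
    rw [Wk, Submodule.mem_sup] at hw
    obtain ⟨w1, h1, w2, h2, rfl⟩ := hw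
    obtain ⟨a, rfl⟩ := Submodule.mem_span_singleton.1 h2
    rw [mulVec_add, mulVec_smul, mulVec_mulVec, ← pow_succ']
    exact Submodule.add_mem _ (Wk_le g u _ (ih w1 h1))
      (Submodule.smul_mem _ _ (pow_mem_Wk g u (k + 1)))

lemma finrank_Wk (k : ℕ) : finrank F (Wk g u k) ≤ k := by
  induction k with
  | zero => rw [Wk]; simp
  | succ k ih =>
    rw [Wk]
    have h1 := Submodule.finrank_add_le_finrank_add_finrank (Wk g u k)
      (Submodule.span F {(g ^ k) *ᵥ u})
    have h2 : finrank F (Submodule.span F {(g ^ k) *ᵥ u}) ≤ 1 := by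
      refine (finrank_span_le_card _).trans ?_
      simp
    omega

lemma Cyc.ne_zero {g : Matrix (Fin n) (Fin n) F} {u : Fin n → F} (hn : 1 ≤ n) (h : Cyc g u) :
    u ≠ 0 := by
  rintro rfl
  have h1 := h ⊥ (by intro x hx; rw [Submodule.mem_bot] at hx ⊢; rw [hx, mulVec_zero])
    (Submodule.zero_mem _)
  have h2 : finrank F (⊥ : Submodule F (Fin n → F)) = finrank F (⊤ : Submodule F (Fin n → F)) := by
    rw [h1]
  rw [finrank_bot, finrank_top, finrank_fin_fun] at h2
  omega

lemma pow_not_mem_Wk {g : Matrix (Fin n) (Fin n) F} {u : Fin n → F} (h : Cyc g u) (k : ℕ)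
    (hk : k < n) : (g ^ k) *ᵥ u ∉ Wk g u k := by
  intro hmem
  rcases Nat.eq_zero_or_pos k with rfl | hk0
  · rw [Wk, Submodule.mem_bot, pow_zero, one_mulVec] at hmem
    exact h.ne_zero (by omega) hmem
  · have h1 : Wk g u (k + 1) ≤ Wk g u k := by
      rw [Wk]
      refine sup_le le_rfl ?_
      rw [Submodule.span_singleton_le_iff_mem]
      exact hmem
    have h2 := h (Wk g u k) (fun x hx => h1 (mul_mem_Wk g u k x hx)) (by
      obtain ⟨j, rfl⟩ : ∃ j, k = j + 1 := ⟨k - 1, by omega⟩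
      exact u_mem_Wk g u j)
    have h3 := finrank_Wk g u k
    rw [h2, finrank_top, finrank_fin_fun] at h3
    omega

/-- the powers `g^j u`, `j < n`, span the cyclic module -/
lemma Wk_n_stable (w : Fin n → F) (hw : w ∈ Wk g u n) : g *ᵥ w ∈ Wk g u n := by
  have key : (g ^ n) *ᵥ u ∈ Wk g u n := by
    have h1 : Polynomial.aeval g g.charpoly = 0 := Matrix.aeval_self_charpoly g
    rw [Polynomial.aeval_eq_sum_range] at h1
    have hd : g.charpoly.natDegree = n := by
      rw [Matrix.charpoly_natDegree_eq_dim, Fintype.card_fin]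
    rw [hd, Finset.sum_range_succ] at h1
    have hc : g.charpoly.coeff n = 1 := by
      have := g.charpoly_monic
      rw [Polynomial.Monic, Polynomial.leadingCoeff, hd] at this
      exact this
    rw [hc, one_smul] at h1
    have h2 : g ^ n = - ∑ i ∈ range n, g.charpoly.coeff i • g ^ i := by
      rw [eq_neg_iff_add_eq_zero, add_comm]; exact h1
    rw [h2, neg_mulVec, Matrix.sum_mulVec]
    refine Submodule.neg_mem _ (Submodule.sum_mem _ ?_)
    intro i hi
    rw [mem_range] at hi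
    rw [smul_mulVec]
    exact Submodule.smul_mem _ _ (Wk_mono g u (Nat.succ_le_of_lt hi) (pow_mem_Wk g u i))
  have h3 : Wk g u (n + 1) ≤ Wk g u n := by
    rw [Wk]
    refine sup_le le_rfl ?_
    rw [Submodule.span_singleton_le_iff_mem]
    exact key
  exact h3 (mul_mem_Wk g u n w hw)

lemma Wk_n_top {g : Matrix (Fin n) (Fin n) F} {u : Fin n → F} (hn : 1 ≤ n) (h : Cyc g u) :
    Wk g u n = ⊤ := by
  refine h _ (Wk_n_stable g u) ?_
  obtain ⟨j, rfl⟩ : ∃ j, n = j + 1 := ⟨n - 1, by omega⟩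
  exact u_mem_Wk g u j

/-- the homogeneous system has only the trivial solution -/
lemma hom_trivial (hn : 1 ≤ n) {c g : Matrix (Fin n) (Fin n) F} {v0 u : Fin n → F}
    (hc : Cyc c v0) (hg : Cyc g u) (x : Matrix (Fin n) (Fin n) F) (ψ : Fin n → F)
    (h1 : x * c - g * x = vecMulVec u ψ) (h2 : x *ᵥ v0 = 0) : x = 0 ∧ ψ = 0 := by
  have h3 : ∀ v, x *ᵥ (c *ᵥ v) = g *ᵥ (x *ᵥ v) + (ψ ⬝ᵥ v) • u := by
    intro v
    have := congrArg (fun M => M *ᵥ v) h1
    simp only [sub_mulVec, ← mulVec_mulVec, vecMulVec_mulVec] at this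
    rw [sub_eq_iff_eq_add] at this
    rw [this, add_comm]
    congr 1
    ext i; simp [mul_comm]
  have h4 : ∀ j v, v ∈ Wk c v0 (j + 1) → x *ᵥ v ∈ Wk g u j := by
    intro j
    induction j with
    | zero =>
      intro v hv
      rw [Wk, Wk, bot_sup_eq, Submodule.mem_span_singleton] at hv
      obtain ⟨a, rfl⟩ := hv
      rw [pow_zero, one_mulVec, mulVec_smul, h2, smul_zero]
      exact Submodule.zero_mem _
    | succ j ih =>
      intro v hv
      rw [Wk, Submodule.mem_sup] at hv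
      obtain ⟨w1, hw1, w2, hw2, rfl⟩ := hv
      obtain ⟨a, rfl⟩ := Submodule.mem_span_singleton.1 hw2
      rw [mulVec_add, mulVec_smul, pow_succ', ← mulVec_mulVec, h3]
      refine Submodule.add_mem _ (Wk_le g u _ (ih w1 hw1)) (Submodule.smul_mem _ _
        (Submodule.add_mem _ ?_ (Submodule.smul_mem _ _ (u_mem_Wk g u j))))
      exact mul_mem_Wk g u j _ (ih _ (pow_mem_Wk c v0 j))
  have h5 : ∀ k, k + 1 ≤ n → (∀ v, x *ᵥ v ∈ Wk g u k) → ∀ v, x *ᵥ v = 0 := by
    intro k
    induction k with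
    | zero =>
      intro _ h v
      have := h v
      rwa [Wk, Submodule.mem_bot] at this
    | succ k ih =>
      intro hk h
      refine ih (by omega) ?_
      intro v
      have h6 := h v
      rw [Wk, Submodule.mem_sup] at h6
      obtain ⟨w1, hw1, w2, hw2, hw⟩ := h6
      obtain ⟨a, rfl⟩ := Submodule.mem_span_singleton.1 hw2
      have h7 : a • ((g ^ (k + 1)) *ᵥ u) ∈ Wk g u (k + 1) := by
        have h8 := h (c *ᵥ v)
        rw [h3, ← hw, mulVec_add, mulVec_smul, mulVec_mulVec, ← pow_succ'] at h8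
        have h9 := mul_mem_Wk g u k w1 hw1
        have h10 : (ψ ⬝ᵥ v) • u ∈ Wk g u (k + 1) := Submodule.smul_mem _ _ (u_mem_Wk g u k)
        have h11 := Submodule.sub_mem _ (Submodule.sub_mem _ h8 h10) h9
        convert h11 using 1
        abel
      by_cases ha : a = 0
      · rw [← hw, ha, zero_smul, add_zero]; exact hw1
      · exfalso
        refine pow_not_mem_Wk hg (k + 1) (by omega) ?_
        have := Submodule.smul_mem _ a⁻¹ h7
        rwa [smul_smul, inv_mul_cancel₀ ha, one_smul] at this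
  have h6 : ∀ v, x *ᵥ v = 0 := by
    obtain ⟨j, rfl⟩ : ∃ j, n = j + 1 := ⟨n - 1, by omega⟩
    refine h5 j le_rfl (fun v => h4 j v ?_)
    rw [Wk_n_top hn hc]
    exact Submodule.mem_top
  have hx : x = 0 := by
    ext i j
    have := congrFun (h6 (Pi.single j 1)) i
    simpa using this
  refine ⟨hx, ?_⟩
  rw [hx, zero_mul, mul_zero, sub_zero] at h1
  have hu := hg.ne_zero hn
  obtain ⟨i, hi⟩ := Function.ne_iff.1 hu
  funext j
  have := congrFun (congrFun h1 i) j
  rw [vecMulVec_apply, Matrix.zero_apply] at this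
  rcases mul_eq_zero.1 this.symm with h | h
  · exact absurd h hi
  · exact h

/-- the inhomogeneous system has exactly one solution -/
lemma unique_sol (hn : 1 ≤ n) {c g : Matrix (Fin n) (Fin n) F} {v0 u : Fin n → F}
    (hc : Cyc c v0) (hg : Cyc g u) :
    ∃! x : Matrix (Fin n) (Fin n) F, x *ᵥ v0 = u ∧ ∃ ψ, x * c - g * x = vecMulVec u ψ := by
  let L : (Matrix (Fin n) (Fin n) F × (Fin n → F)) →ₗ[F] (Matrix (Fin n) (Fin n) F × (Fin n → F)) :=
    { toFun := fun p => (p.1 * c - g * p.1 - vecMulVec u p.2, p.1 *ᵥ v0)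
      map_add' := by
        intro p p'
        ext i j
        · simp [add_mul, mul_add, vecMulVec_apply]; ring
        · simp [add_mulVec]
      map_smul' := by
        intro a p
        ext i j
        · simp [vecMulVec_apply]; ring
        · simp [smul_mulVec] }
  have hL : ∀ p, L p = (p.1 * c - g * p.1 - vecMulVec u p.2, p.1 *ᵥ v0) := fun _ => rfl
  have hinj : Function.Injective L := by
    rw [← LinearMap.ker_eq_bot, LinearMap.ker_eq_bot']
    intro p hp
    rw [hL, Prod.mk_eq_zero, sub_eq_zero] at hp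
    have := hom_trivial hn hc hg p.1 p.2 hp.1 hp.2
    exact Prod.ext this.1 this.2
  have hsurj : Function.Surjective L := LinearMap.injective_iff_surjective.1 hinj
  obtain ⟨p, hp⟩ := hsurj (0, u)
  rw [hL, Prod.mk.injEq, sub_eq_zero] at hp
  refine ⟨p.1, ⟨hp.2, p.2, hp.1⟩, ?_⟩
  rintro x ⟨h1, ψ, h2⟩
  have h3 : L (x, ψ) = L p := by
    rw [hL, hL]
    simp only
    rw [h2, hp.1, sub_self, sub_self, h1, hp.2]
  exact congrArg Prod.fst (hinj h3)

lemma isUnit_of_cyc {c g x : Matrix (Fin n) (Fin n) F} {v0 u : Fin n → F}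
    (hg : Cyc g u) (h1 : x *ᵥ v0 = u) (h2 : ∃ ψ, x * c - g * x = vecMulVec u ψ) : IsUnit x := by
  obtain ⟨ψ, h2⟩ := h2
  rw [← Matrix.mulVec_surjective_iff_isUnit]
  have h3 : LinearMap.range x.mulVecLin = ⊤ := by
    refine hg _ ?_ ⟨v0, h1⟩
    rintro y ⟨v, rfl⟩
    refine ⟨c *ᵥ v - (ψ ⬝ᵥ v) • v0, ?_⟩
    simp only [mulVecLin_apply]
    have := congrArg (fun M => M *ᵥ v) h2
    simp only [sub_mulVec, ← mulVec_mulVec, vecMulVec_mulVec] at this
    rw [mulVec_sub, mulVec_smul, h1]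
    rw [sub_eq_iff_eq_add] at this
    rw [this]
    ext i; simp [mul_comm]
  intro y
  have h4 : y ∈ LinearMap.range x.mulVecLin := by rw [h3]; exact Submodule.mem_top
  obtain ⟨v, hv⟩ := h4
  exact ⟨v, hv⟩

/-- conversely an invertible intertwiner exists only if `u` is cyclic -/
lemma cyc_of_isUnit {c g x : Matrix (Fin n) (Fin n) F} {u : Fin n → F}
    (hirr : IsIrred c) (hx : IsUnit x) (hu : u ≠ 0)
    (h2 : ∃ ψ, x * c - g * x = vecMulVec u ψ) : Cyc g u := by
  obtain ⟨ψ, h2⟩ := h2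
  intro S hS huS
  have h3 : ∀ v, x *ᵥ (c *ᵥ v) = g *ᵥ (x *ᵥ v) + (ψ ⬝ᵥ v) • u := by
    intro v
    have := congrArg (fun M => M *ᵥ v) h2
    simp only [sub_mulVec, ← mulVec_mulVec, vecMulVec_mulVec] at this
    rw [sub_eq_iff_eq_add] at this
    rw [this, add_comm]
    congr 1
    ext i; simp [mul_comm]
  have hsurj := Matrix.mulVec_surjective_iff_isUnit.2 hx
  rcases hirr (S.comap x.mulVecLin) (by
    intro v hv
    rw [Submodule.mem_comap, mulVecLin_apply] at hv ⊢
    rw [h3]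
    exact Submodule.add_mem _ (hS _ hv) (Submodule.smul_mem _ _ huS)) with h | h
  · exfalso
    obtain ⟨v, hv⟩ := hsurj u
    have : v ∈ S.comap x.mulVecLin := by
      rw [Submodule.mem_comap, mulVecLin_apply]
      exact hv ▸ huS
    rw [h, Submodule.mem_bot] at this
    rw [this] at hv
    exact hu (by rw [← hv]; exact mulVec_zero x)
  · rw [eq_top_iff]
    intro y _
    obtain ⟨v, hv⟩ := hsurj y
    have : v ∈ S.comap x.mulVecLin := by rw [h]; exact Submodule.mem_top
    rw [Submodule.mem_comap, mulVecLin_apply] at this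
    exact hv ▸ this

/-- every nonzero vector is cyclic for an irreducible `c` -/
lemma IsIrred.cyc {c : Matrix (Fin n) (Fin n) F} (hirr : IsIrred c) {v0 : Fin n → F}
    (hv : v0 ≠ 0) : Cyc c v0 := by
  intro S hS hvS
  rcases hirr S hS with h | h
  · rw [h, Submodule.mem_bot] at hvS
    exact absurd hvS hv
  · exact h

end GL2

end Pool.Agent.MP_359fef_co
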