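import Pool.Agent.Lib.MP_359fef_co_h56.SelfDual

/-!
# GL1, the two dual sums (b1) and (b2)
-/

set_option autoImplicit false

namespace Pool.Agent.MP_359fef_co.GL1

open Polynomial Module

universe u

section form

variable {F : Type u} [Field F] {M : Type u} [AddCommGroup M] [Module F M]

/-- a symmetric nondegenerate form for which `T` is self-adjoint -/
structure SForm (T : M →ₗ[F] M) where
  /-- the form -/
  B : LinearMap.BilinForm F M
  symm : ∀ x y, B x y = B y x
  nd : B.Nondegenerate
  adj : ∀ x y, B (T x) y = B x (T y)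

theorem exists_SForm [FiniteDimensional F M] (T : M →ₗ[F] M) : Nonempty (SForm T) := by
  obtain ⟨B, h1, h2, h3⟩ := exists_form T
  exact ⟨⟨B, h1, ⟨fun x hx => h2 x hx, fun x hx => h2 x (fun y => by rw [h1]; exact hx y)⟩, h3⟩⟩

variable {T : M →ₗ[F] M} (s : SForm T)

theorem SForm.refl : s.B.IsRefl := fun x y h => by rw [s.symm]; exact h

theorem SForm.adj_pow (j : ℕ) (x y : M) : s.B ((T ^ j) x) y = s.B x ((T ^ j) y) := by
  induction j generalizing x y with
  | zero => simp
  | succ j ih =>
    rw [pow_succ, Module.End.mul_apply, ih, s.adj, ← Module.End.mul_apply, ← pow_succ', pow_succ]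

theorem SForm.orth_stab {D : Submodule F M} (hD : StabE T D) : StabE T (s.B.orthogonal D) := by
  intro x hx m hm
  have := hx (T m) (hD m hm)
  change s.B (T m) x = 0 at this
  change s.B m (T x) = 0
  rwa [s.adj] at this

/-- the hull of one vector -/
noncomputable def hull1 (T : M →ₗ[F] M) (w : M) : Submodule F M := hull T (fun _ : Fin 1 => w)

theorem mem_hull1 (w : M) : w ∈ hull1 T w := mem_hull T (fun _ : Fin 1 => w) 0

theorem hull1_le {w : M} {S : Submodule F M} (hS : StabE T S) : hull1 T w ≤ S ↔ w ∈ S :=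
  ⟨fun h => h (mem_hull1 w), fun h => hull_le hS (fun _ => h)⟩

theorem stab_hull1 (w : M) : StabE T (hull1 T w) := stab_hull T _

theorem SForm.DD_eq (w : M) : DD T (s.B w) = s.B.orthogonal (hull1 T w) := by
  apply le_antisymm
  · intro x hx m hm
    rw [mem_DD] at hx
    have h1 : w ∈ DD T (s.B x) := by
      rw [mem_DD]
      intro j
      rw [s.symm, s.adj_pow]
      exact hx j
    have h2 := (hull1_le (stab_DD T (s.B x))).2 h1 hm
    change s.B m x = 0
    rw [s.symm]
    have h3 := DD_le T (s.B x) h2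
    exact h3
  · intro x hx
    rw [mem_DD]
    intro j
    rw [← s.adj_pow]
    refine hx _ ?_
    have h1 : (T ^ j) w ∈ hull1 T w := by
      have := (stab_hull1 (T := T) w).aeval (X ^ j) (mem_hull1 w)
      rwa [map_pow, aeval_X] at this
    exact h1

/-- the quotient operator -/
noncomputable def Tq (T : M →ₗ[F] M) (D : Submodule F M) (hD : StabE T D) : (M ⧸ D) →ₗ[F] (M ⧸ D) :=
  D.mapQ D T (fun x hx => hD x hx)

theorem Tq_mk {D : Submodule F M} (hD : StabE T D) (x : M) :
    Tq T D hD (Submodule.Quotient.mk x) = Submodule.Quotient.mk (T x) := rfl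

/-- key duality: `D^⊥` is isomorphic to `M / D` -/
theorem SForm.exists_equiv [FiniteDimensional F M] {D : Submodule F M} (hD : StabE T D) :
    ∃ e : (s.B.orthogonal D) ≃ₗ[F] (M ⧸ D), ∀ x : s.B.orthogonal D,
      e ⟨T x.1, s.orth_stab hD x.1 x.2⟩ = Tq T D hD (e x) := by
  obtain ⟨s'⟩ := exists_SForm (Tq T D hD)
  have hker : ∀ x : s.B.orthogonal D, D ≤ LinearMap.ker (s.B x.1) := by
    intro x m hm
    rw [LinearMap.mem_ker, s.symm]
    exact x.2 m hm
  let e0 : (s.B.orthogonal D) →ₗ[F] Module.Dual F (M ⧸ D) :=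
    { toFun := fun x => D.liftQ (s.B x.1) (hker x)
      map_add' := by
        intro x y
        apply Submodule.linearMap_qext
        ext m
        simp
      map_smul' := by
        intro a x
        apply Submodule.linearMap_qext
        ext m
        simp }
  have he0 : ∀ x m, e0 x (Submodule.Quotient.mk m) = s.B x.1 m := fun _ _ => rfl
  let L : (s.B.orthogonal D) →ₗ[F] (M ⧸ D) := (s'.B.toDual s'.nd).symm.toLinearMap ∘ₗ e0
  have hL : ∀ x m, s'.B (L x) (Submodule.Quotient.mk m) = s.B x.1 m := by
    intro x m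
    rw [← he0]
    exact LinearMap.BilinForm.apply_toDual_symm_apply (hB := s'.nd) (e0 x) _
  have hinj : Function.Injective L := by
    rw [← LinearMap.ker_eq_bot, LinearMap.ker_eq_bot']
    intro x hx
    apply Subtype.ext
    refine s.nd.1 x.1 (fun m => ?_)
    rw [← hL, hx, map_zero, LinearMap.zero_apply]
  have hdim : finrank F (s.B.orthogonal D) = finrank F (M ⧸ D) := by
    rw [LinearMap.BilinForm.finrank_orthogonal s.nd, Submodule.finrank_quotient]
  refine ⟨L.linearEquivOfInjective hinj hdim, ?_⟩
  intro x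
  change L _ = Tq T D hD (L x)
  have h1 : s'.B (L ⟨T x.1, s.orth_stab hD x.1 x.2⟩) = s'.B (Tq T D hD (L x)) := by
    apply Submodule.linearMap_qext
    ext m
    change s'.B (L ⟨T x.1, s.orth_stab hD x.1 x.2⟩) (Submodule.Quotient.mk m) =
      s'.B (Tq T D hD (L x)) (Submodule.Quotient.mk m)
    rw [hL, s'.adj, Tq_mk, hL]
    exact s.adj _ _
  exact (s'.B.toDual s'.nd).injective h1

/-- the tuples generating `D^⊥` -/
theorem SForm.NS_orth [FiniteDimensional F M] {D : Submodule F M} (hD : StabE T D) (k : ℕ) :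
    NS T (s.B.orthogonal D) k = NE (Tq T D hD) k := by
  obtain ⟨e, he⟩ := s.exists_equiv hD
  have hO := s.orth_stab hD
  have he' : ∀ z, ((e.symm (Tq T D hD z)) : M) = T (e.symm z : M) := by
    intro z
    have h1 := he (e.symm z)
    rw [LinearEquiv.apply_symm_apply] at h1
    rw [← h1, LinearEquiv.symm_apply_apply]
  unfold NS NE
  refine Nat.card_congr
    { toFun := fun y => ⟨fun i => e ⟨y.1 i, (le_of_eq y.2) (mem_hull T y.1 i)⟩, ?_⟩
      invFun := fun z => ⟨fun i => (e.symm (z.1 i) : M), ?_⟩
      left_inv := fun y => by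
        apply Subtype.ext
        funext i
        simp only [LinearEquiv.symm_apply_apply]
      right_inv := fun z => by
        apply Subtype.ext
        funext i
        simp only [Subtype.coe_eta, LinearEquiv.apply_symm_apply] }
  · intro S hS hz
    have h1 : hull T y.1 ≤ (S.comap e.toLinearMap).map (s.B.orthogonal D).subtype := by
      apply hull_le
      · rintro x ⟨x', hx', rfl⟩
        refine ⟨⟨T x'.1, hO x'.1 x'.2⟩, ?_, rfl⟩
        change e _ ∈ S
        rw [he]
        exact hS _ hx'
      · intro i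
        exact ⟨⟨y.1 i, (le_of_eq y.2) (mem_hull T y.1 i)⟩, hz i, rfl⟩
    rw [y.2] at h1
    rw [eq_top_iff]
    intro m _
    obtain ⟨x, hx, hxe⟩ := h1 (e.symm m).2
    have h2 : x = e.symm m := Subtype.ext hxe
    rw [h2] at hx
    change e (e.symm m) ∈ S at hx
    rwa [LinearEquiv.apply_symm_apply] at hx
  · apply le_antisymm
    · exact hull_le hO (fun i => (e.symm (z.1 i)).2)
    · have h1 := z.2 ((hull T (fun i => (e.symm (z.1 i) : M))).comap
        ((s.B.orthogonal D).subtype ∘ₗ e.symm.toLinearMap)) (by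
          intro m hm
          change (e.symm (Tq T D hD m) : M) ∈ hull T (fun i => (e.symm (z.1 i) : M))
          rw [he']
          exact stab_hull T _ _ hm) (by
          intro i
          exact mem_hull T (fun i => (e.symm (z.1 i) : M)) i)
      intro x hx
      have h2 : e ⟨x, hx⟩ ∈ ((hull T (fun i => (e.symm (z.1 i) : M))).comap
        ((s.B.orthogonal D).subtype ∘ₗ e.symm.toLinearMap)) := by rw [h1]; exact Submodule.mem_top
      change (e.symm (e ⟨x, hx⟩) : M) ∈ hull T (fun i => (e.symm (z.1 i) : M)) at h2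
      rwa [LinearEquiv.symm_apply_apply] at h2

end form

end Pool.Agent.MP_359fef_co.GL1
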