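import Pool.Agent.Lib.MP_359fef_co.Base

/-!
# Definitions for the GL part of MP_359fef_co (verbatim from the skeleton)
-/

namespace Pool.Agent.MP_359fef_co

open Finset Matrix Module

universe u

variable {F : Type u} [Field F] [Fintype F] {n : ℕ}

/-- `y` generates `F^n` under `g`. -/
def Gen (g : Matrix (Fin n) (Fin n) F) {k : ℕ} (y : Fin k → Fin n → F) : Prop :=
  ∀ S : Submodule F (Fin n → F), (∀ x ∈ S, g *ᵥ x ∈ S) → (∀ i, y i ∈ S) → S = ⊤

/-- the number of `k`-tuples generating `F^n` under `g` -/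
noncomputable def NN (k : ℕ) (g : Matrix (Fin n) (Fin n) F) : ℚ :=
  (Nat.card {y : Fin k → Fin n → F // Gen g y} : ℚ)

end Pool.Agent.MP_359fef_co
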