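import Pool.Agent.Lib.MP_359fef_co_h56.Step0

/-!
# MP_359fef_co, GL3: `glMain` from `star` (taken as a hypothesis here) and `step0`
-/

set_option autoImplicit false

namespace Pool.Agent.MP_359fef_co

open Finset Matrix Module

universe u

namespace GL3

open GL2

variable {F : Type u} [Field F] [Fintype F] {n : ℕ}

/-- `cf` is a class function -/
lemma cf_conj (x : ℚ) (l : List F) {y : Matrix (Fin n) (Fin n) F} (hy : InGL y)
    (g : Matrix (Fin n) (Fin n) F) :
    cf InGL x l (y * g * y⁻¹) = cf InGL x l g := by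
  classical
  induction l generalizing g with
  | nil =>
    have h1 : y * g * y⁻¹ = 1 ↔ g = 1 := by
      constructor
      · intro h
        have h3 : y⁻¹ * (y * g * y⁻¹) * y = y⁻¹ * 1 * y := by rw [h]
        rwa [Matrix.mul_one, nonsing_inv_mul _ hy, Matrix.mul_assoc y, ← Matrix.mul_assoc y⁻¹,
          nonsing_inv_mul _ hy, Matrix.one_mul, Matrix.mul_assoc, nonsing_inv_mul _ hy,
          Matrix.mul_one] at h3
      · rintro rfl
        rw [Matrix.mul_one, mul_nonsing_inv _ hy]
    simp only [cf, h1]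
  | cons a l ih =>
    simp only [cf]
    rw [ih g]
    congr 1
    rw [← sum_Rset_conj a _ hy]
    refine Finset.sum_congr rfl (fun t ht => ?_)
    have h1 : (y * t * y⁻¹)⁻¹ * (y * g * y⁻¹) = y * (t⁻¹ * g) * y⁻¹ := by
      rw [Matrix.mul_inv_rev, Matrix.mul_inv_rev, nonsing_inv_nonsing_inv _ hy,
        Matrix.mul_assoc y g, ← Matrix.mul_assoc (y * (t⁻¹ * y⁻¹)),
        Matrix.mul_assoc y (t⁻¹ * y⁻¹) y, Matrix.mul_assoc t⁻¹, nonsing_inv_mul _ hy,
        Matrix.mul_one]
      simp only [Matrix.mul_assoc]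
    rw [h1, ih]

/-- support of `cf` -/
lemma cf_support (x : ℚ) (l : List F) (g : Matrix (Fin n) (Fin n) F) (hg : g.det ≠ l.prod) :
    cf InGL x l g = 0 := by
  classical
  induction l generalizing g with
  | nil =>
    rw [cf, if_neg]
    rintro rfl
    exact hg (by simp)
  | cons a l ih =>
    rw [cf]
    have h1 : ∑ t ∈ Rset InGL a, cf InGL x l (t⁻¹ * g) = 0 := by
      refine Finset.sum_eq_zero (fun t ht => ih _ ?_)
      rw [Rset, mem_filter] at ht
      obtain ⟨_, ht1, _, ht3⟩ := ht
      unfold InGL at ht1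
      have h2 := ht1.ne_zero
      intro h
      apply hg
      rw [det_mul, det_nonsing_inv, Ring.inverse_eq_inv', ht3] at h
      rw [ht3] at h2
      rw [List.prod_cons, ← h, ← mul_assoc, mul_inv_cancel₀ h2, one_mul]
    rw [h1, zero_add]
    split_ifs with ha
    · rw [ih g, mul_zero]
      rintro h
      apply hg
      rw [List.prod_cons, ha, one_mul, h]
    · rfl

open Classical in
/-- the pairing with a function -/
noncomputable def BB (x : ℚ) (f : Matrix (Fin n) (Fin n) F → ℚ) (l : List F) : ℚ :=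
  ∑ g ∈ univ.filter (fun g : Matrix (Fin n) (Fin n) F => InGL g), f g * cf InGL x l g

lemma BB_nil (x : ℚ) (f : Matrix (Fin n) (Fin n) F → ℚ) : BB x f [] = f 1 := by
  classical
  rw [BB, Finset.sum_eq_single 1]
  · simp [cf]
  · intro g _ hg
    rw [cf, if_neg hg, mul_zero]
  · intro h
    exfalso
    apply h
    rw [mem_filter]
    refine ⟨mem_univ _, ?_⟩
    unfold InGL
    rw [det_one]; exact isUnit_one

lemma BB_cons (x : ℚ) (f : Matrix (Fin n) (Fin n) F → ℚ)
    (hf : ∀ x g, InGL x → f (x * g * x⁻¹) = f g) (a : F) (l : List F) :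
    BB x f (a :: l) = BB x (op InGL x a f) l := by
  classical
  have h1 : ∑ g ∈ univ.filter (fun g : Matrix (Fin n) (Fin n) F => InGL g),
      f g * ∑ t ∈ Rset InGL a, cf InGL x l (t⁻¹ * g) =
      ∑ g ∈ univ.filter (fun g : Matrix (Fin n) (Fin n) F => InGL g),
        (∑ t ∈ Rset InGL a, f (g * t)) * cf InGL x l g := by
    simp only [Finset.mul_sum, Finset.sum_mul]
    rw [Finset.sum_comm, Finset.sum_comm (s := univ.filter (fun g : Matrix (Fin n) (Fin n) F =>
      InGL g))]
    refine Finset.sum_congr rfl (fun t ht => ?_)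
    rw [Rset, mem_filter] at ht
    have ht1 := ht.2.1
    have hti := inGL_inv ht1
    refine Finset.sum_bij' (fun g _ => t⁻¹ * g) (fun g _ => t * g) ?_ ?_ ?_ ?_ ?_
    · intro g hg
      rw [mem_filter] at hg ⊢
      refine ⟨mem_univ _, ?_⟩
      have := hg.2
      unfold InGL at this hti ⊢
      rw [det_mul]; exact hti.mul this
    · intro g hg
      rw [mem_filter] at hg ⊢
      refine ⟨mem_univ _, ?_⟩
      have := hg.2
      unfold InGL at this ht1 ⊢
      rw [det_mul]; exact ht1.mul this
    · intro g _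
      rw [← Matrix.mul_assoc, mul_nonsing_inv _ ht1, Matrix.one_mul]
    · intro g _
      rw [← Matrix.mul_assoc, nonsing_inv_mul _ ht1, Matrix.one_mul]
    · intro g _
      rw [← hf t (t⁻¹ * g * t) ht1]
      congr 2
      rw [Matrix.mul_assoc t⁻¹, ← Matrix.mul_assoc t, mul_nonsing_inv _ ht1, Matrix.one_mul,
        Matrix.mul_assoc, mul_nonsing_inv _ ht1, Matrix.mul_one]
  unfold BB op
  simp only [cf, mul_add, add_mul, Finset.sum_add_distrib]
  rw [h1]
  congr 1
  refine Finset.sum_congr rfl (fun g _ => ?_)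
  split_ifs
  · ring
  · ring

omit [Fintype F] in
/-- `NN k` is a class function -/
lemma NN_conj (k : ℕ) {x : Matrix (Fin n) (Fin n) F} (g : Matrix (Fin n) (Fin n) F)
    (hx : InGL x) : NN k (x * g * x⁻¹) = NN k g := by
  have key : ∀ (x g : Matrix (Fin n) (Fin n) F) (y : Fin k → Fin n → F), InGL x → Gen g y →
      Gen (x * g * x⁻¹) (fun i => x *ᵥ y i) := by
    intro x g y hx hy S hS hyS
    have h1 := hy (S.comap x.mulVecLin) (by
      intro v hv
      rw [Submodule.mem_comap, mulVecLin_apply] at hv ⊢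
      have := hS _ hv
      rwa [mulVec_mulVec, Matrix.mul_assoc, nonsing_inv_mul _ hx, Matrix.mul_one,
        ← mulVec_mulVec] at this) (by
      intro i
      rw [Submodule.mem_comap, mulVecLin_apply]
      exact hyS i)
    rw [eq_top_iff]
    intro v _
    have h2 : x⁻¹ *ᵥ v ∈ S.comap x.mulVecLin := by rw [h1]; exact Submodule.mem_top
    rwa [Submodule.mem_comap, mulVecLin_apply, mulVec_mulVec, mul_nonsing_inv _ hx,
      one_mulVec] at h2
  have key' : ∀ (y : Fin k → Fin n → F), Gen (x * g * x⁻¹) y → Gen g (fun i => x⁻¹ *ᵥ y i) := by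
    intro y hy
    have h1 := key x⁻¹ (x * g * x⁻¹) y (inGL_inv hx) hy
    have h2 : x⁻¹ * (x * g * x⁻¹) * x⁻¹⁻¹ = g := by
      rw [nonsing_inv_nonsing_inv _ hx, Matrix.mul_assoc x, ← Matrix.mul_assoc x⁻¹,
          nonsing_inv_mul _ hx, Matrix.one_mul, Matrix.mul_assoc, nonsing_inv_mul _ hx,
          Matrix.mul_one]
    rwa [h2] at h1
  unfold NN
  congr 1
  refine Nat.card_congr
    { toFun := fun y => ⟨fun i => x⁻¹ *ᵥ y.1 i, key' y.1 y.2⟩
      invFun := fun y => ⟨fun i => x *ᵥ y.1 i, key x g y.1 hx y.2⟩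
      left_inv := fun y => by
        apply Subtype.ext
        funext i
        simp only
        rw [mulVec_mulVec, mul_nonsing_inv _ hx, one_mulVec]
      right_inv := fun y => by
        apply Subtype.ext
        funext i
        simp only
        rw [mulVec_mulVec, nonsing_inv_mul _ hx, one_mulVec] }

/-- repeated use of `star` -/
lemma BB_NN
    (hstar : ∀ (g : Matrix (Fin n) (Fin n) F), InGL g → ∀ (a : F), a ≠ 0 → ∀ (k : ℕ),
      ((Fintype.card F : ℚ) ^ (k + 1) - 1) * op InGL (Fintype.card F) a (NN k) g =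
        ((Fintype.card F : ℚ) ^ k - 1) * qInt (Fintype.card F) n * NN (k + 1) g)
    (l : List F) (hl : ∀ a ∈ l, a ≠ 0) (k : ℕ) :
    ((Fintype.card F : ℚ) ^ (k + l.length) - 1) * BB (Fintype.card F) (NN (n := n) k) l =
      ((Fintype.card F : ℚ) ^ k - 1) * qInt (Fintype.card F) n ^ l.length *
        NN (k + l.length) (1 : Matrix (Fin n) (Fin n) F) := by
  classical
  induction l generalizing k with
  | nil => rw [BB_nil]; simp
  | cons a l ih =>
    have ha : a ≠ 0 := hl a (by simp)
    have h1 := ih (fun b hb => hl b (by simp [hb])) (k + 1)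
    rw [BB_cons _ _ (fun x g hx => NN_conj k g hx)]
    have h2 : ((Fintype.card F : ℚ) ^ (k + 1) - 1) *
        BB (Fintype.card F) (op InGL (Fintype.card F) a (NN (n := n) k)) l =
        ((Fintype.card F : ℚ) ^ k - 1) * qInt (Fintype.card F) n *
          BB (Fintype.card F) (NN (n := n) (k + 1)) l := by
      unfold BB
      rw [Finset.mul_sum, Finset.mul_sum]
      refine Finset.sum_congr rfl (fun g hg => ?_)
      rw [mem_filter] at hg
      rw [← mul_assoc, hstar g hg.2 a ha k]
      ring
    have hq : ((Fintype.card F : ℚ) ^ (k + 1) - 1) ≠ 0 := by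
      have := one_lt_pow₀ (one_lt_q (F := F)) (Nat.succ_ne_zero k)
      exact (sub_pos.2 this).ne'
    apply mul_left_cancel₀ hq
    have h3 : k + (a :: l).length = k + 1 + l.length := by simp; ring
    rw [h3, List.length_cons, pow_succ (qInt _ _) l.length]
    calc ((Fintype.card F : ℚ) ^ (k + 1) - 1) * (((Fintype.card F : ℚ) ^ (k + 1 + l.length) - 1) *
        BB (Fintype.card F) (op InGL (Fintype.card F) a (NN (n := n) k)) l)
        = ((Fintype.card F : ℚ) ^ (k + 1 + l.length) - 1) *
          (((Fintype.card F : ℚ) ^ (k + 1) - 1) *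
        BB (Fintype.card F) (op InGL (Fintype.card F) a (NN (n := n) k)) l) := by ring
      _ = ((Fintype.card F : ℚ) ^ k - 1) * qInt (Fintype.card F) n *
          (((Fintype.card F : ℚ) ^ (k + 1 + l.length) - 1) *
          BB (Fintype.card F) (NN (n := n) (k + 1)) l) := by rw [h2]; ring
      _ = _ := by rw [h1]; ring

/-! ### spanning tuples -/

omit [Fintype F] in
lemma gen_one_iff {L : ℕ} (y : Fin L → Fin n → F) :
    Gen (1 : Matrix (Fin n) (Fin n) F) y ↔ LinearIndependent F (fun (i : Fin n) (j : Fin L) =>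
      y j i) := by
  rw [Fintype.linearIndependent_iff]
  constructor
  · intro h g hg
    let f : (Fin n → F) →ₗ[F] F :=
      { toFun := fun v => g ⬝ᵥ v
        map_add' := fun a b => dotProduct_add _ _ _
        map_smul' := fun a b => by simp [dotProduct_smul] }
    have h1 := h (LinearMap.ker f) (by intro x hx; rwa [one_mulVec]) (by
      intro j
      rw [LinearMap.mem_ker]
      change g ⬝ᵥ y j = 0
      have := congrFun hg j
      simpa [dotProduct] using this)
    intro i
    have h2 : (Pi.single i 1 : Fin n → F) ∈ LinearMap.ker f := by rw [h1]; exact Submodule.mem_top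
    rw [LinearMap.mem_ker] at h2
    change g ⬝ᵥ Pi.single i 1 = 0 at h2
    rwa [dotProduct_single, mul_one] at h2
  · intro h S _ hS
    by_contra hne
    obtain ⟨f, hf0, hf⟩ := S.exists_le_ker_of_lt_top (lt_top_iff_ne_top.2 hne)
    apply hf0
    have h1 := h (fun i => f (Pi.single i 1)) (by
      funext j
      have h2 := hf (hS j)
      rw [LinearMap.mem_ker] at h2
      have h3 : y j = ∑ i, y j i • (Pi.single i 1 : Fin n → F) := by
        conv_lhs => rw [← Finset.univ_sum_single (y j)]
        refine Finset.sum_congr rfl (fun i _ => ?_)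
        ext k
        by_cases hk : k = i
        · subst hk; simp
        · simp [hk]
      rw [h3, map_sum] at h2
      simp only [map_smul, smul_eq_mul] at h2
      simp only [Finset.sum_apply, Pi.smul_apply, smul_eq_mul, Pi.zero_apply]
      rw [← h2]
      exact Finset.sum_congr rfl (fun i _ => mul_comm _ _))
    apply LinearMap.pi_ext'
    intro i
    apply LinearMap.ext_ring
    simpa using h1 i

lemma NN_gen_one (L : ℕ) :
    NN L (1 : Matrix (Fin n) (Fin n) F) =
      ∏ i ∈ range n, ((Fintype.card F : ℚ) ^ L - (Fintype.card F : ℚ) ^ i) := by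
  have h1 : Nat.card {y : Fin L → Fin n → F // Gen (1 : Matrix (Fin n) (Fin n) F) y} =
      Nat.card {s : Fin n → (Fin L → F) // LinearIndependent F s} := by
    refine Nat.card_congr
      { toFun := fun y => ⟨fun i j => y.1 j i, (gen_one_iff y.1).1 y.2⟩
        invFun := fun s => ⟨fun j i => s.1 i j, (gen_one_iff _).2 s.2⟩
        left_inv := fun y => rfl
        right_inv := fun s => rfl }
  rw [NN, h1]
  by_cases hL : n ≤ L
  · rw [card_linearIndependent (by rw [finrank_fin_fun]; exact hL), finrank_fin_fun,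
      Nat.cast_prod, Finset.prod_range]
    refine Finset.prod_congr rfl (fun i _ => ?_)
    rw [Nat.cast_sub (Nat.pow_le_pow_right Fintype.card_pos (i.isLt.le.trans hL)), Nat.cast_pow,
      Nat.cast_pow]
  · have h2 : IsEmpty {s : Fin n → (Fin L → F) // LinearIndependent F s} := by
      constructor
      rintro ⟨s, hs⟩
      have := hs.fintype_card_le_finrank
      rw [Fintype.card_fin, finrank_fin_fun] at this
      exact hL this
    rw [Nat.card_of_isEmpty, Nat.cast_zero]
    symm
    exact Finset.prod_eq_zero (mem_range.2 (by omega : L < n)) (sub_self _)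

/-! ### the final computation -/

lemma qInt_pos {x : ℚ} (hx : 1 < x) {k : ℕ} (hk : 1 ≤ k) : 0 < qInt x k := by
  have h1 := qInt_mul x k
  have h2 : 0 < x ^ k - 1 := sub_pos.2 (one_lt_pow₀ hx (by omega))
  have h3 : 0 < x - 1 := sub_pos.2 hx
  rw [← h1] at h2
  exact pos_of_mul_pos_right h2 h3.le

lemma qFact_pos {x : ℚ} (hx : 1 < x) (k : ℕ) : 0 < qFact x k := by
  unfold qFact
  exact Finset.prod_pos (fun i _ => qInt_pos hx (by omega))

lemma qFact_succ (x : ℚ) (k : ℕ) : qFact x (k + 1) = qFact x k * qInt x (k + 1) := by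
  unfold qFact
  rw [Finset.prod_range_succ]

lemma prod_sub_pow (x : ℚ) (L n : ℕ) (h : n ≤ L) :
    (∏ i ∈ range n, (x ^ L - x ^ i)) * qFact x (L - n) =
      (∏ i ∈ range n, x ^ i) * (x - 1) ^ n * qFact x L := by
  induction n with
  | zero => simp
  | succ n ih =>
    have h1 := ih (by omega)
    obtain ⟨k, hk⟩ : ∃ k, L - n = k + 1 := ⟨L - n - 1, by omega⟩
    have h2 : L - (n + 1) = k := by omega
    have h3 : L = n + (k + 1) := by omega
    have h4 : x ^ L - x ^ n = x ^ n * ((x - 1) * qInt x (k + 1)) := by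
      rw [qInt_mul, mul_sub, ← pow_add, ← h3, mul_one]
    rw [hk, qFact_succ] at h1
    rw [Finset.prod_range_succ, Finset.prod_range_succ, h2, h4, pow_succ]
    calc (∏ i ∈ range n, (x ^ L - x ^ i)) * (x ^ n * ((x - 1) * qInt x (k + 1))) * qFact x k
        = ((∏ i ∈ range n, (x ^ L - x ^ i)) * (qFact x k * qInt x (k + 1))) *
          (x ^ n * (x - 1)) := by ring
      _ = _ := by rw [h1]; ring

/-- numerical identity -/
lemma final_value {x : ℚ} (hx : 1 < x) {n L : ℕ} (hn : 1 ≤ n) (hL : 1 ≤ L) :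
    (∏ i ∈ range n, (x ^ n - x ^ i)) * (x ^ L - 1) * kapVal x n L =
      qInt x n ^ L * (x - 1) * ∏ i ∈ range n, (x ^ L - x ^ i) := by
  unfold kapVal
  split_ifs with h
  · obtain ⟨m, rfl⟩ : ∃ m, n = m + 1 := ⟨n - 1, by omega⟩
    obtain ⟨M, rfl⟩ : ∃ m, L = m + 1 := ⟨L - 1, by omega⟩
    simp only [Nat.add_sub_cancel]
    have h1 := prod_sub_pow x (M + 1) (m + 1) h
    have h2 := prod_sub_pow x (m + 1) (m + 1) le_rfl
    have h3 : M + 1 - (m + 1) = M - m := by omega
    rw [h3] at h1
    rw [Nat.sub_self] at h2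
    have h4 : qFact x 0 = 1 := by simp [qFact]
    rw [h4, mul_one] at h2
    have p1 := qFact_pos hx (M - m)
    have p2 := qFact_pos hx m
    have p3 := qInt_pos hx (k := m + 1) (by omega)
    apply mul_right_cancel₀ p1.ne'
    rw [mul_assoc (qInt x (m + 1) ^ (M + 1) * (x - 1)), h1, h2, ← qInt_mul x (M + 1),
      qFact_succ x m, qFact_succ x M, qBinom, pow_succ (qInt x (m + 1)) M]
    field_simp
  · rw [mul_zero, Finset.prod_eq_zero (i := L) (mem_range.2 (by omega)) (sub_self _), mul_zero]

/-- GL3, with `star` as a hypothesis -/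
theorem glMain_of_star
    (hstar : ∀ (g : Matrix (Fin n) (Fin n) F), InGL g → ∀ (a : F), a ≠ 0 → ∀ (k : ℕ),
      ((Fintype.card F : ℚ) ^ (k + 1) - 1) * op InGL (Fintype.card F) a (NN k) g =
        ((Fintype.card F : ℚ) ^ k - 1) * qInt (Fintype.card F) n * NN (k + 1) g)
    (hn : 1 ≤ n) (c : Matrix (Fin n) (Fin n) F) (hc : InGL c) (hirr : IsIrred c)
    (l : List F) (hl : l ≠ []) (hprod : l.prod = c.det) :
    cf InGL (Fintype.card F) l c = kapVal (Fintype.card F) n l.length := by
  classical
  obtain ⟨a, l, rfl⟩ : ∃ a l', l = a :: l' := by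
    cases l with
    | nil => exact absurd rfl hl
    | cons a l => exact ⟨a, l, rfl⟩
  have hcd : c.det ≠ 0 := hc.ne_zero
  rw [List.prod_cons] at hprod
  have ha : a ≠ 0 := by rintro rfl; apply hcd; rw [← hprod, zero_mul]
  have hlp : l.prod ≠ 0 := by intro h; apply hcd; rw [← hprod, h, mul_zero]
  have hl0 : ∀ b ∈ l, b ≠ 0 := by
    rintro b hb rfl
    exact hlp (List.prod_eq_zero hb)
  have hx : (1 : ℚ) < Fintype.card F := one_lt_q
  -- from `cf` to `op`
  have h1 : cf InGL (Fintype.card F) (a :: l) c =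
      op InGL (Fintype.card F) a⁻¹ (cf InGL (Fintype.card F) l) c := by
    rw [cf, op]
    congr 1
    · refine Finset.sum_bij' (fun t _ => t⁻¹) (fun t _ => t⁻¹) ?_ ?_ ?_ ?_ ?_
      · intro t ht
        rw [Rset, mem_filter] at ht ⊢
        obtain ⟨_, ht1, ht2, ht3⟩ := ht
        refine ⟨mem_univ _, inGL_inv ht1, ?_, ?_⟩
        · obtain ⟨h1, H, h2, h3⟩ := ht2
          refine ⟨?_, H, h2, ?_⟩
          · intro h
            apply h1
            rw [← nonsing_inv_nonsing_inv _ ht1, h, inv_one]
          · intro v hv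
            have := h3 v hv
            calc t⁻¹ *ᵥ v = t⁻¹ *ᵥ (t *ᵥ v) := by rw [this]
              _ = v := by rw [mulVec_mulVec, nonsing_inv_mul _ ht1, one_mulVec]
        · rw [det_nonsing_inv, Ring.inverse_eq_inv', ht3]
      · intro t ht
        rw [Rset, mem_filter] at ht ⊢
        obtain ⟨_, ht1, ht2, ht3⟩ := ht
        refine ⟨mem_univ _, inGL_inv ht1, ?_, ?_⟩
        · obtain ⟨h1, H, h2, h3⟩ := ht2
          refine ⟨?_, H, h2, ?_⟩
          · intro h
            apply h1
            rw [← nonsing_inv_nonsing_inv _ ht1, h, inv_one]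
          · intro v hv
            have := h3 v hv
            calc t⁻¹ *ᵥ v = t⁻¹ *ᵥ (t *ᵥ v) := by rw [this]
              _ = v := by rw [mulVec_mulVec, nonsing_inv_mul _ ht1, one_mulVec]
        · rw [det_nonsing_inv, Ring.inverse_eq_inv', ht3, inv_inv]
      · intro t ht
        rw [Rset, mem_filter] at ht
        exact nonsing_inv_nonsing_inv _ ht.2.1
      · intro t ht
        rw [Rset, mem_filter] at ht
        exact nonsing_inv_nonsing_inv _ ht.2.1
      · intro t ht
        rw [Rset, mem_filter] at ht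
        rw [← cf_conj _ l ht.2.1 (t⁻¹ * c), ← Matrix.mul_assoc t, mul_nonsing_inv _ ht.2.1,
          Matrix.one_mul]
    · simp only [inv_eq_one]
  have h2 := step0 hn c hc hirr a⁻¹ (inv_ne_zero ha) (cf InGL (Fintype.card F) l)
    (fun x g hx => cf_conj _ l hx g)
  rw [← h1] at h2
  have h3 : ∑ g ∈ univ.filter (fun g : Matrix (Fin n) (Fin n) F => InGL g ∧
      g.det = a⁻¹ * c.det), NN 1 g * cf InGL (Fintype.card F) l g =
      BB (Fintype.card F) (NN (n := n) 1) l := by
    unfold BB
    refine Finset.sum_subset ?_ ?_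
    · intro g hg
      rw [mem_filter] at hg ⊢
      exact ⟨mem_univ _, hg.2.1⟩
    · intro g hg hg'
      rw [mem_filter] at hg hg'
      rw [cf_support _ l g, mul_zero]
      intro h
      apply hg'
      refine ⟨mem_univ _, hg.2, ?_⟩
      rw [h, ← hprod, ← mul_assoc, inv_mul_cancel₀ ha, one_mul]
  rw [h3] at h2
  have h4 := BB_NN hstar l hl0 1
  rw [NN_gen_one, pow_one, add_comm 1 l.length] at h4
  have h5 := final_value hx hn (L := l.length + 1) (by omega)
  have hq : ((Fintype.card F : ℚ) ^ (l.length + 1) - 1) ≠ 0 :=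
    (sub_pos.2 (one_lt_pow₀ hx (Nat.succ_ne_zero _))).ne'
  have hP : (∏ i ∈ range n, ((Fintype.card F : ℚ) ^ n - (Fintype.card F : ℚ) ^ i)) ≠ 0 := by
    rw [Finset.prod_ne_zero_iff]
    intro i hi
    rw [mem_range] at hi
    exact (sub_pos.2 (pow_lt_pow_right₀ hx hi)).ne'
  rw [List.length_cons]
  apply mul_left_cancel₀ (mul_ne_zero hP hq)
  rw [h5]
  calc (∏ i ∈ range n, ((Fintype.card F : ℚ) ^ n - (Fintype.card F : ℚ) ^ i)) *
      ((Fintype.card F : ℚ) ^ (l.length + 1) - 1) * cf InGL (Fintype.card F) (a :: l) c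
      = ((Fintype.card F : ℚ) ^ (l.length + 1) - 1) *
      ((∏ i ∈ range n, ((Fintype.card F : ℚ) ^ n - (Fintype.card F : ℚ) ^ i)) *
        cf InGL (Fintype.card F) (a :: l) c) := by ring
    _ = qInt (Fintype.card F) n * (((Fintype.card F : ℚ) ^ (l.length + 1) - 1) *
        BB (Fintype.card F) (NN (n := n) 1) l) := by rw [h2]; ring
    _ = _ := by rw [h4]; ring

end GL3

end Pool.Agent.MP_359fef_co
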