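import Pool.Agent.Lib.MP_359fef_co_h47.GL1i

/-!
# GL1, duality: a symmetric nondegenerate form for which `T` is self-adjoint
-/

set_option autoImplicit false

namespace Pool.Agent.MP_359fef_co.GL1

open Polynomial Module

universe u

section cc

variable {F : Type u} [Field F]

/-- the top coefficient functional modulo a monic polynomial -/
noncomputable def cc (g P : F[X]) : F := (P %ₘ g).coeff (g.natDegree - 1)

theorem cc_add (g P Q : F[X]) : cc g (P + Q) = cc g P + cc g Q := by
  unfold cc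
  rw [add_modByMonic, coeff_add]

theorem cc_C_mul (g P : F[X]) (a : F) : cc g (C a * P) = a * cc g P := by
  unfold cc
  rw [← smul_eq_C_mul, smul_modByMonic, coeff_smul, smul_eq_mul]

theorem cc_dvd {g P : F[X]} (hg : g.Monic) (h : g ∣ P) : cc g P = 0 := by
  unfold cc
  rw [(modByMonic_eq_zero_iff_dvd hg).2 h, coeff_zero]

theorem cc_congr {g P Q : F[X]} (hg : g.Monic) (h : g ∣ P - Q) : cc g P = cc g Q := by
  have h1 : P = (P - Q) + Q := by ring
  rw [h1, cc_add, cc_dvd hg h, zero_add]

theorem cc_nondeg {g P : F[X]} (hg : g.Monic) (h : ¬ g ∣ P) :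
    ∃ j : ℕ, cc g (P * X ^ j) ≠ 0 := by
  have hr : P %ₘ g ≠ 0 := fun h0 => h ((modByMonic_eq_zero_iff_dvd hg).1 h0)
  have hg1 : g ≠ 1 := by rintro rfl; exact h (one_dvd _)
  have hdeg : (P %ₘ g).natDegree < g.natDegree := natDegree_modByMonic_lt P hg hg1
  refine ⟨g.natDegree - 1 - (P %ₘ g).natDegree, ?_⟩
  have h1 : cc g (P * X ^ (g.natDegree - 1 - (P %ₘ g).natDegree)) =
      cc g ((P %ₘ g) * X ^ (g.natDegree - 1 - (P %ₘ g).natDegree)) := by
    apply cc_congr hg
    rw [← sub_mul]
    apply Dvd.dvd.mul_right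
    have := modByMonic_add_div P g
    exact ⟨P /ₘ g, by rw [sub_eq_iff_eq_add]; nth_rewrite 1 [← this]; ring⟩
  rw [h1]
  unfold cc
  have h2 : ((P %ₘ g) * X ^ (g.natDegree - 1 - (P %ₘ g).natDegree)).degree < g.degree := by
    apply degree_lt_degree
    refine lt_of_le_of_lt natDegree_mul_le ?_
    rw [natDegree_X_pow]
    omega
  rw [(modByMonic_eq_self_iff hg).2 h2]
  have h3 : g.natDegree - 1 = (P %ₘ g).natDegree + (g.natDegree - 1 - (P %ₘ g).natDegree) := by
    omega
  rw [h3, add_tsub_cancel_left, coeff_mul_X_pow, coeff_natDegree]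
  exact leadingCoeff_ne_zero.2 hr

end cc

section form

variable {F : Type u} [Field F] {M : Type u} [AddCommGroup M] [Module F M]

/-- a representative polynomial of the class `π x` -/
noncomputable def rp {f : F[X]} {N : Type u} [AddCommGroup N] [Module F[X] N]
    (π : N →ₗ[F[X]] (F[X] ⧸ (Submodule.span F[X] {f}))) (x : N) : F[X] :=
  (Submodule.Quotient.mk_surjective _ (π x)).choose

theorem rp_spec {f : F[X]} {N : Type u} [AddCommGroup N] [Module F[X] N]
    (π : N →ₗ[F[X]] (F[X] ⧸ (Submodule.span F[X] {f}))) (x : N) :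
    Submodule.Quotient.mk (rp π x) = π x :=
  (Submodule.Quotient.mk_surjective _ (π x)).choose_spec

theorem dvd_of_mk_eq {f P Q : F[X]}
    (h : (Submodule.Quotient.mk P : F[X] ⧸ (Submodule.span F[X] {f})) = Submodule.Quotient.mk Q) :
    f ∣ P - Q := by
  rw [Submodule.Quotient.eq, Submodule.mem_span_singleton] at h
  obtain ⟨a, ha⟩ := h
  exact ⟨a, by rw [← ha, smul_eq_mul, mul_comm]⟩

theorem rp_add {f : F[X]} {N : Type u} [AddCommGroup N] [Module F[X] N]
    (π : N →ₗ[F[X]] (F[X] ⧸ (Submodule.span F[X] {f}))) (x y : N) :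
    f ∣ rp π (x + y) - (rp π x + rp π y) := by
  apply dvd_of_mk_eq
  rw [rp_spec, map_add, Submodule.Quotient.mk_add, rp_spec, rp_spec]

theorem rp_smul {f : F[X]} {N : Type u} [AddCommGroup N] [Module F[X] N]
    (π : N →ₗ[F[X]] (F[X] ⧸ (Submodule.span F[X] {f}))) (r : F[X]) (x : N) :
    f ∣ rp π (r • x) - r * rp π x := by
  apply dvd_of_mk_eq
  rw [rp_spec, map_smul, ← smul_eq_mul, Submodule.Quotient.mk_smul, rp_spec]

/-- existence of the form -/
theorem exists_form [FiniteDimensional F M] (T : M →ₗ[F] M) :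
    ∃ B : M →ₗ[F] M →ₗ[F] F, (∀ x y, B x y = B y x) ∧ (∀ x, (∀ y, B x y = 0) → x = 0) ∧
      ∀ x y, B (T x) y = B x (T y) := by
  classical
  have htor : Module.IsTorsion F[X] (AEval' T) := AEval.isTorsion_of_finiteDimensional F M T
  obtain ⟨ι, _, p, hp, e, ⟨E⟩⟩ := Module.equiv_directSum_of_isTorsion htor
  let π : ∀ i, AEval' T →ₗ[F[X]] (F[X] ⧸ (Submodule.span F[X] {p i ^ e i})) :=
    fun i => (DirectSum.component F[X] ι _ i) ∘ₗ E.toLinearMap
  let g : ι → F[X] := fun i => p i ^ e i * C ((p i ^ e i).leadingCoeff)⁻¹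
  have hf0 : ∀ i, p i ^ e i ≠ 0 := fun i => pow_ne_zero _ (hp i).ne_zero
  have hg : ∀ i, (g i).Monic := fun i => monic_mul_leadingCoeff_inv (hf0 i)
  have hgf : ∀ i P, p i ^ e i ∣ P ↔ g i ∣ P := by
    intro i P
    have hu : IsUnit (C ((p i ^ e i).leadingCoeff)⁻¹) := by
      rw [isUnit_C, isUnit_iff_ne_zero]
      exact inv_ne_zero (leadingCoeff_ne_zero.2 (hf0 i))
    exact hu.mul_right_dvd.symm
  let r : ι → M → F[X] := fun i x => rp (π i) (AEval'.of T x)
  let β : M → M → F := fun x y => ∑ i, cc (g i) (r i x * r i y)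
  have hβ : ∀ x y, β x y = ∑ i, cc (g i) (r i x * r i y) := fun _ _ => rfl
  have hsymm : ∀ x y, β x y = β y x := by
    intro x y
    rw [hβ, hβ]
    exact Finset.sum_congr rfl (fun i _ => by rw [mul_comm])
  have hadd : ∀ x x' y, β (x + x') y = β x y + β x' y := by
    intro x x' y
    rw [hβ, hβ, hβ, ← Finset.sum_add_distrib]
    refine Finset.sum_congr rfl (fun i _ => ?_)
    rw [← cc_add, ← add_mul]
    apply cc_congr (hg i)
    rw [← sub_mul]
    apply Dvd.dvd.mul_right
    rw [← hgf]
    have := rp_add (π i) (AEval'.of T x) (AEval'.of T x')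
    rwa [← map_add] at this
  have hsmul : ∀ (a : F) x y, β (a • x) y = a * β x y := by
    intro a x y
    rw [hβ, hβ, Finset.mul_sum]
    refine Finset.sum_congr rfl (fun i _ => ?_)
    rw [← cc_C_mul, ← mul_assoc]
    apply cc_congr (hg i)
    rw [← sub_mul]
    apply Dvd.dvd.mul_right
    rw [← hgf]
    have := rp_smul (π i) (C a) (AEval'.of T x)
    rwa [AEval.C_smul, ← map_smul] at this
  have hT : ∀ x y, β (T x) y = β x (T y) := by
    have key : ∀ x y, β (T x) y = ∑ i, cc (g i) (X * (r i x * r i y)) := by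
      intro x y
      rw [hβ]
      refine Finset.sum_congr rfl (fun i _ => ?_)
      rw [← mul_assoc]
      apply cc_congr (hg i)
      rw [← sub_mul]
      apply Dvd.dvd.mul_right
      rw [← hgf]
      have := rp_smul (π i) X (AEval'.of T x)
      rwa [AEval'.X_smul_of] at this
    intro x y
    rw [hsymm x (T y), key, key]
    exact Finset.sum_congr rfl (fun i _ => by rw [mul_comm (r i x)])
  refine ⟨LinearMap.mk₂ F β hadd (fun a x y => by rw [hsmul, smul_eq_mul])
    (fun x y y' => by rw [hsymm, hadd, hsymm y, hsymm y'])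
    (fun a x y => by rw [hsymm, hsmul, hsymm y, smul_eq_mul]), hsymm, ?_, hT⟩
  intro x hx
  have h1 : ∀ i, π i (AEval'.of T x) = 0 := by
    intro i
    by_contra hne
    have h2 : ¬ g i ∣ r i x := by
      rw [← hgf]
      rintro ⟨a, ha⟩
      apply hne
      rw [← rp_spec (π i) (AEval'.of T x), Submodule.Quotient.mk_eq_zero,
        Submodule.mem_span_singleton]
      exact ⟨a, by rw [smul_eq_mul, mul_comm]; exact ha.symm⟩
    obtain ⟨j, hj⟩ := cc_nondeg (hg i) h2
    apply hj
    let y : M := (AEval'.of T).symm (E.symm (DirectSum.lof F[X] ι _ i (Submodule.Quotient.mk (X ^ j))))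
    have hy : ∀ i', π i' (AEval'.of T y) =
        DirectSum.component F[X] ι _ i' (DirectSum.lof F[X] ι
          (fun i => F[X] ⧸ (Submodule.span F[X] {p i ^ e i})) i
          (Submodule.Quotient.mk (X ^ j))) := by
      intro i'
      simp only [π, y, LinearMap.comp_apply, LinearEquiv.coe_coe, LinearEquiv.apply_symm_apply]
    have h3 := hx y
    rw [LinearMap.mk₂_apply, hβ, Finset.sum_eq_single i] at h3
    · rw [← h3]
      apply cc_congr (hg i)
      rw [← mul_sub]
      apply Dvd.dvd.mul_left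
      rw [← hgf]
      apply dvd_of_mk_eq
      rw [rp_spec, hy, DirectSum.component.lof_self]
    · intro i' _ hi'
      apply cc_dvd (hg i')
      apply Dvd.dvd.mul_left
      rw [← hgf]
      have h4 : (Submodule.Quotient.mk (r i' y) : F[X] ⧸ (Submodule.span F[X] {p i' ^ e i'})) =
          Submodule.Quotient.mk 0 := by
        rw [rp_spec, hy, DirectSum.component.of, dif_neg (fun h => hi' h.symm)]
        rfl
      simpa using dvd_of_mk_eq h4
    · intro h; exact absurd (Finset.mem_univ i) h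
  have h2 : E (AEval'.of T x) = 0 := by
    apply DFinsupp.ext
    intro i
    exact h1 i
  rw [LinearEquiv.map_eq_zero_iff] at h2
  exact (LinearEquiv.map_eq_zero_iff _).1 h2

end form

end Pool.Agent.MP_359fef_co.GL1
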